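import Pool.Agent.FAP.Targets

/-!
# Fast approximation of discrete groups of unitaries: AINV
-/

set_option autoImplicit false

namespace Pool.Agent.FAP

open Pool.Agent.JM

universe u

theorem ainv_holds : tAINV.{u} := by
  classical
  intro G _ S T f κ hf0 hfT hN hS
  set N : ℝ := ∑ x ∈ T, f x ^ 2 with hNdef
  refine ⟨fun φ => ∑ x ∈ T, f x ^ 2 / N * φ x, ?_, ?_⟩
  · refine ⟨Fin T.card, inferInstance, fun i => f (T.equivFin.symm i : G) ^ 2 / N,
      fun i => (T.equivFin.symm i : G), fun i => div_nonneg (sq_nonneg _) hN.le, ?_, fun φ => ?_⟩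
    · have h1 : ∑ i, f (T.equivFin.symm i : G) ^ 2 / N = ∑ x ∈ T, f x ^ 2 / N := by
        rw [← Finset.sum_coe_sort T (fun x => f x ^ 2 / N)]
        exact Equiv.sum_comp T.equivFin.symm (fun x : T => f (x : G) ^ 2 / N)
      rw [h1, ← Finset.sum_div, ← hNdef, div_self hN.ne']
    · simp only
      rw [← Finset.sum_coe_sort T (fun x => f x ^ 2 / N * φ x)]
      exact (Equiv.sum_comp T.equivFin.symm (fun x : T => f (x : G) ^ 2 / N * φ x)).symm
  · intro s hs φ hφ
    set g : G → ℝ := fun x => f (s⁻¹ * x) with hg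
    set U : Finset G := T ∪ T.image (fun x => s * x) with hU
    have hTU : T ⊆ U := Finset.subset_union_left
    have hIU : T.image (fun x => s * x) ⊆ U := Finset.subset_union_right
    have hgI : ∀ x, x ∉ T.image (fun x => s * x) → g x = 0 := by
      intro x hx
      refine hfT _ fun h => hx ?_
      exact Finset.mem_image.2 ⟨s⁻¹ * x, h, by simp⟩
    -- sums over `U`
    have hsumf : ∀ F : G → ℝ → ℝ, (∀ x, F x 0 = 0) → ∑ x ∈ T, F x (f x) = ∑ x ∈ U, F x (f x) := by
      intro F hF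
      refine Finset.sum_subset hTU fun x _ hx => ?_
      rw [hfT x hx, hF]
    have hsumg : ∀ F : G → ℝ → ℝ, (∀ x, F x 0 = 0) →
        ∑ x ∈ T, F (s * x) (f x) = ∑ x ∈ U, F x (g x) := by
      intro F hF
      have h1 : ∑ x ∈ T.image (fun x => s * x), F x (g x) = ∑ x ∈ T, F (s * x) (f x) := by
        rw [Finset.sum_image (fun a _ b _ h => mul_left_cancel h)]
        refine Finset.sum_congr rfl fun x _ => ?_
        simp [hg]
      rw [← h1]
      refine Finset.sum_subset hIU fun x _ hx => ?_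
      rw [hgI x hx, hF]
    have hf2 : ∑ x ∈ U, f x ^ 2 = N := by
      rw [hNdef]
      exact (hsumf (fun _ t => t ^ 2) (by simp)).symm
    have hg2 : ∑ x ∈ U, g x ^ 2 = N := by
      rw [hNdef]
      exact (hsumg (fun _ t => t ^ 2) (by simp)).symm
    have hfg : (1 - κ) * N ≤ ∑ x ∈ U, f x * g x := by
      have h1 := hS s hs
      have h2 := hsumf (fun x t => t * g x) (by simp)
      rw [← h2]
      exact h1
    -- the difference
    have hL1 : ∑ x ∈ T, f x ^ 2 / N * φ (s * x) = ∑ x ∈ U, g x ^ 2 / N * φ x :=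
      hsumg (fun x t => t ^ 2 / N * φ x) (by simp)
    have hL2 : ∑ x ∈ T, f x ^ 2 / N * φ x = ∑ x ∈ U, f x ^ 2 / N * φ x :=
      hsumf (fun x t => t ^ 2 / N * φ x) (by simp)
    have hd : |∑ x ∈ T, f x ^ 2 / N * φ (s * x) - ∑ x ∈ T, f x ^ 2 / N * φ x| ≤
        (∑ x ∈ U, |g x - f x| * |g x + f x|) / N := by
      rw [hL1, hL2, ← Finset.sum_sub_distrib, Finset.sum_div]
      refine le_trans (Finset.abs_sum_le_sum_abs _ _) (Finset.sum_le_sum fun x _ => ?_)
      have e : g x ^ 2 / N * φ x - f x ^ 2 / N * φ x = (g x - f x) * (g x + f x) / N * φ x := by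
        ring
      rw [e, abs_mul, abs_div, abs_mul, abs_of_pos hN]
      exact mul_le_of_le_one_right (by positivity) (hφ x)
    have hm : ∑ x ∈ U, |g x - f x| ^ 2 ≤ 2 * κ * N := by
      have e : ∑ x ∈ U, |g x - f x| ^ 2 = ∑ x ∈ U, g x ^ 2 + ∑ x ∈ U, f x ^ 2 -
          2 * ∑ x ∈ U, f x * g x := by
        rw [Finset.mul_sum, ← Finset.sum_add_distrib, ← Finset.sum_sub_distrib]
        refine Finset.sum_congr rfl fun x _ => ?_
        rw [sq_abs]; ring
      rw [e, hf2, hg2]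
      linarith
    have hp : ∑ x ∈ U, |g x + f x| ^ 2 ≤ 4 * N := by
      have e : ∑ x ∈ U, |g x + f x| ^ 2 ≤ ∑ x ∈ U, (2 * g x ^ 2 + 2 * f x ^ 2) := by
        refine Finset.sum_le_sum fun x _ => ?_
        rw [sq_abs]; nlinarith [sq_nonneg (g x - f x)]
      refine le_trans e ?_
      rw [Finset.sum_add_distrib, ← Finset.mul_sum, ← Finset.mul_sum, hf2, hg2]
      linarith
    have hm0 : 0 ≤ ∑ x ∈ U, |g x - f x| ^ 2 := Finset.sum_nonneg fun x _ => sq_nonneg _
    have hcs : (∑ x ∈ U, |g x - f x| * |g x + f x|) ^ 2 ≤ 8 * κ * N ^ 2 := by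
      refine le_trans (Finset.sum_mul_sq_le_sq_mul_sq U _ _) ?_
      calc (∑ x ∈ U, |g x - f x| ^ 2) * ∑ x ∈ U, |g x + f x| ^ 2
          ≤ (2 * κ * N) * (4 * N) := by
            refine mul_le_mul hm hp (Finset.sum_nonneg fun x _ => sq_nonneg _) (le_trans hm0 hm)
        _ = 8 * κ * N ^ 2 := by ring
    refine le_trans hd ?_
    rw [div_le_iff₀ hN]
    have hκ : 0 ≤ κ := by
      by_contra h
      push Not at h
      have : 2 * κ * N < 0 := by nlinarith
      linarith
    have h8 : (2 * √(2 * κ) * N) ^ 2 = 8 * κ * N ^ 2 := by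
      have := Real.sq_sqrt (show (0 : ℝ) ≤ 2 * κ by linarith)
      calc (2 * √(2 * κ) * N) ^ 2 = 4 * (√(2 * κ)) ^ 2 * N ^ 2 := by ring
        _ = 8 * κ * N ^ 2 := by rw [this]; ring
    refine (pow_le_pow_iff_left₀ (Finset.sum_nonneg fun x _ => by positivity) (by positivity)
      two_ne_zero).1 ?_
    rw [h8]
    exact hcs

end Pool.Agent.FAP
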