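import Pool.Agent.FAP.Targets

/-!
# CRIT: the criterion for amenability
-/

set_option autoImplicit false

namespace Pool.Agent.FAP

open Pool.Agent.JM

universe u

theorem CND.symm_add {G : Type u} [Group G] {ψ : G → ℝ} (h : CND ψ) :
    CND (fun g => ψ g + ψ g⁻¹) := by
  refine ⟨by simp [h.one], fun g => add_nonneg (h.nonneg _) (h.nonneg _), ?_⟩
  intro s c hc
  have h1 := h.neg s c hc
  have h2 : ∑ g ∈ s, ∑ k ∈ s, c g * c k * ψ ((g⁻¹ * k)⁻¹) =
      ∑ g ∈ s, ∑ k ∈ s, c g * c k * ψ (g⁻¹ * k) := by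
    rw [Finset.sum_comm]
    refine Finset.sum_congr rfl fun g _ => Finset.sum_congr rfl fun k _ => ?_
    rw [mul_inv_rev, inv_inv]
    ring
  simp only [mul_add, Finset.sum_add_distrib]
  rw [h2]
  linarith

theorem AInv.mono' {G : Type u} [Group G] {S T : Set G} {ε ε' : ℝ} (h : AInv S ε) (hT : T ⊆ S)
    (he : ε ≤ ε') : AInv T ε' := by
  obtain ⟨L, hL, hinv⟩ := h
  exact ⟨L, hL, fun s hs φ hφ => (hinv s (hT hs) φ hφ).trans he⟩

theorem norm_sub_starProj_le {H : Type u} [NormedAddCommGroup H] [InnerProductSpace ℂ H]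
    (V : Submodule ℂ H) [FiniteDimensional ℂ V] (x v : H) (hv : v ∈ V) :
    ‖x - V.starProjection x‖ ≤ ‖x - v‖ := by
  rw [Submodule.starProjection_minimal]
  exact ciInf_le ⟨0, by rintro _ ⟨y, rfl⟩; exact norm_nonneg _⟩ (⟨v, hv⟩ : V)

/-- The unitary isometry property. -/
theorem norm_unitary_apply {H : Type u} [NormedAddCommGroup H] [InnerProductSpace ℂ H]
    [CompleteSpace H] (u : unitary (H →L[ℂ] H)) (x : H) : ‖(u : H →L[ℂ] H) x‖ = ‖x‖ := by
  have h1 : (star (u : H →L[ℂ] H)) * (u : H →L[ℂ] H) = 1 := (Unitary.mem_iff.mp u.2).1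
  have h2 : inner ℂ ((u : H →L[ℂ] H) x) ((u : H →L[ℂ] H) x) = inner ℂ x x := by
    rw [← ContinuousLinearMap.adjoint_inner_right, ← ContinuousLinearMap.star_eq_adjoint,
      ← mul_apply_eq_comp, h1, one_apply_eq_self]
  have h3 : ‖(u : H →L[ℂ] H) x‖ ^ 2 = ‖x‖ ^ 2 := by
    have := congrArg Complex.re h2
    rw [inner_self_eq_norm_sq_to_K, inner_self_eq_norm_sq_to_K] at this
    exact_mod_cast this
  exact (sq_eq_sq₀ (norm_nonneg _) (norm_nonneg _)).mp h3

theorem crit_num (c ζ D : ℝ) (hc : 0 < c) (hζ : 0 < ζ) (hζ1 : ζ < 1) (hD : 1 ≤ D) :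
    ∃ j : ℕ, 4 * Real.exp (2 * D * Real.log (1 + 4 / c)) * (1 - ζ) ^ (2 ^ j) ≤ 1 ∧
      (2 : ℝ) ^ j ≤ (2 * (Real.log 4 + 2 * Real.log (1 + 4 / c)) / ζ + 2) * D := by
  classical
  set l := Real.log (1 + 4 / c) with hl
  have hl0 : 0 ≤ l := Real.log_nonneg (by
    have : 0 < 4 / c := by positivity
    linarith)
  have hl4 : 0 < Real.log 4 := Real.log_pos (by norm_num)
  set X := Real.log 4 + 2 * D * l with hX
  have hex : ∃ j : ℕ, X ≤ ζ * 2 ^ j := by
    obtain ⟨j, hj⟩ := pow_unbounded_of_one_lt (X / ζ) (one_lt_two)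
    refine ⟨j, ?_⟩
    rw [div_lt_iff₀ hζ] at hj
    linarith [mul_comm ζ ((2 : ℝ) ^ j)]
  refine ⟨Nat.find hex, ?_, ?_⟩
  · have hj := Nat.find_spec hex
    set j := Nat.find hex
    have h1 : (1 - ζ) ^ (2 ^ j) ≤ Real.exp (-(ζ * 2 ^ j)) := by
      have h2 : 1 - ζ ≤ Real.exp (-ζ) := by linarith [Real.add_one_le_exp (-ζ)]
      calc (1 - ζ) ^ (2 ^ j) ≤ Real.exp (-ζ) ^ (2 ^ j) :=
            pow_le_pow_left₀ (by linarith) h2 _
        _ = Real.exp (-(ζ * 2 ^ j)) := by
            rw [← Real.exp_nat_mul]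
            congr 1
            push_cast
            ring
    calc 4 * Real.exp (2 * D * l) * (1 - ζ) ^ (2 ^ j)
        ≤ 4 * Real.exp (2 * D * l) * Real.exp (-(ζ * 2 ^ j)) := by gcongr
      _ = Real.exp (Real.log 4 + 2 * D * l - ζ * 2 ^ j) := by
          rw [sub_eq_add_neg, Real.exp_add, Real.exp_add, Real.exp_log (by norm_num)]
      _ ≤ 1 := by
          rw [Real.exp_le_one_iff]
          linarith
  · rcases Nat.eq_zero_or_pos (Nat.find hex) with h0 | h0
    · rw [h0, pow_zero]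
      have : 0 ≤ 2 * (Real.log 4 + 2 * l) / ζ := by positivity
      nlinarith
    · have hmin := Nat.find_min hex (m := Nat.find hex - 1) (by omega)
      rw [not_le] at hmin
      set j := Nat.find hex
      have h2 : (2 : ℝ) ^ j = 2 * 2 ^ (j - 1) := by
        rw [← pow_succ']
        congr 1
        omega
      have h3 : (2 : ℝ) ^ (j - 1) < X / ζ := by
        rw [lt_div_iff₀ hζ]
        linarith [mul_comm ζ ((2 : ℝ) ^ (j - 1))]
      have h4 : X ≤ D * (Real.log 4 + 2 * l) := by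
        rw [hX]
        nlinarith
      have h5 : X / ζ ≤ D * (Real.log 4 + 2 * l) / ζ := by gcongr
      have h6 : (2 * (Real.log 4 + 2 * l) / ζ + 2) * D =
          2 * (D * (Real.log 4 + 2 * l) / ζ) + 2 * D := by ring
      rw [h6, h2]
      linarith

theorem crit_pow (C D ε P : ℝ) (hC : 0 < C) (hD : 0 < D) (hε : 0 < ε) (hP : P ≤ C * D) :
    P * (2 * (ε / (4 * C)) / D) ≤ ε / 2 := by
  have h0 : 0 ≤ 2 * (ε / (4 * C)) / D := by positivity
  refine (mul_le_mul_of_nonneg_right hP h0).trans (le_of_eq ?_)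
  field_simp
  ring

theorem crit_holds (h1 : tPACK.{u}) (h2 : tWALK.{u}) (h3 : tAINV.{u}) : tCRIT.{u} := by
  intro H _ _ _ Ω Γ c hΩ hc hsep happ
  classical
  refine amenable_of_ainv fun F ε' hε' => ?_
  set S : Finset Γ := F ∪ F.image (·⁻¹) ∪ {1} with hS
  have hS1 : (1 : Γ) ∈ S := by simp [hS]
  have hSinv : ∀ s ∈ S, s⁻¹ ∈ S := by
    intro s hs
    simp only [hS, Finset.mem_union, Finset.mem_image, Finset.mem_singleton] at hs ⊢
    rcases hs with (hs | ⟨a, ha, rfl⟩) | rfl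
    · exact Or.inl (Or.inr ⟨s, hs, rfl⟩)
    · exact Or.inl (Or.inl (by simpa using ha))
    · exact Or.inr (by simp)
  have hFS : (F : Set Γ) ⊆ (S : Set Γ) := by
    intro s hs
    simp only [hS, Finset.coe_union, Set.mem_union]
    exact Or.inl (Or.inl hs)
  have hk : (1 : ℝ) ≤ (S.card : ℝ) := by
    exact_mod_cast Finset.card_pos.mpr ⟨1, hS1⟩
  set k : ℝ := (S.card : ℝ) with hkdef
  set ζ : ℝ := min (1 / 2) (ε' ^ 2 / (8 * k ^ 2)) with hζdef
  have hζ : 0 < ζ := lt_min (by norm_num) (by positivity)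
  have hζ1 : ζ < 1 := (min_le_left _ _).trans_lt (by norm_num)
  have hζ2 : ζ ≤ ε' ^ 2 / (8 * k ^ 2) := min_le_right _ _
  have hfinal : 2 * √(2 * (k ^ 2 * ζ)) ≤ ε' := by
    have h4 : 2 * (k ^ 2 * ζ) ≤ (ε' / 2) ^ 2 := by
      rw [le_div_iff₀ (by positivity)] at hζ2
      nlinarith
    have h5 : √(2 * (k ^ 2 * ζ)) ≤ ε' / 2 := by
      rw [← Real.sqrt_sq (by positivity : (0 : ℝ) ≤ ε' / 2)]
      exact Real.sqrt_le_sqrt h4
    linarith
  set ε : ℝ := c ^ 2 / 32 with hεdef
  have hε : 0 < ε := by positivity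
  set L0 : ℝ := Real.log 4 + 2 * Real.log (1 + 4 / c) with hL0
  have hl0 : 0 ≤ Real.log (1 + 4 / c) := Real.log_nonneg (by
    have : 0 < 4 / c := by positivity
    linarith)
  have hl4 : 0 < Real.log 4 := Real.log_pos (by norm_num)
  have hL0pos : 0 < L0 := by positivity
  set C : ℝ := 2 * L0 / ζ + 2 with hC
  have hCpos : 0 < C := by positivity
  obtain ⟨V, hV, ψ0, hψ0, hdist, hsmall⟩ := happ S (ε / (4 * C)) (by positivity)
  -- the dimension is positive
  have hD : (1 : ℝ) ≤ (Module.finrank ℂ V : ℝ) := by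
    have : 0 < Module.finrank ℂ V := by
      by_contra h0
      have h0' : Module.finrank ℂ V = 0 := by omega
      have hVbot : V = ⊥ := Submodule.finrank_eq_zero.mp h0'
      obtain ⟨v, hv, hv2⟩ := hdist 1
      rw [hVbot, Submodule.mem_bot] at hv
      rw [hψ0.one, hv] at hv2
      simp only [OneMemClass.coe_one, one_apply_eq_self, sub_zero] at hv2
      rw [hΩ] at hv2
      norm_num at hv2
    exact_mod_cast this
  set D : ℝ := (Module.finrank ℂ V : ℝ) with hDdef
  obtain ⟨j, hj1, hj2⟩ := crit_num c ζ D hc hζ hζ1 hD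
  set B : ℝ := Real.exp (2 * D * Real.log (1 + 4 / c)) with hB
  have hBpow : B = (1 + 4 / c) ^ (2 * Module.finrank ℂ V) := by
    have hpos : (0 : ℝ) < 1 + 4 / c := by positivity
    rw [hB, ← Real.exp_log (pow_pos hpos _), Real.log_pow]
    congr 1
    push_cast
    ring
  have hψ := hψ0.symm_add
  set ψ : Γ → ℝ := fun g => ψ0 g + ψ0 g⁻¹ with hψdef
  set σ : ℝ := 2 * (ε / (4 * C)) / D with hσ
  have hDpos : 0 < D := by linarith
  have hψσ : ∀ s ∈ S, ψ s ≤ σ := by
    intro s hs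
    have h4 := hsmall s hs
    have h5 := hsmall s⁻¹ (hSinv s hs)
    rw [hσ, le_div_iff₀ hDpos]
    simp only [hψdef]
    nlinarith
  have hcard : ∀ K : Finset Γ, (∀ g ∈ K, ψ g ≤ ε) → (K.card : ℝ) ≤ B := by
    intro K hK
    rw [hBpow]
    have h4 := h1 V (c / 2) Γ K
      (fun g => V.orthogonalProjectionOnto (((g : unitary (H →L[ℂ] H)) : H →L[ℂ] H) Ω))
      (by positivity) ?_ ?_
    · have h5 : (1 : ℝ) + 2 / (c / 2) = 1 + 4 / c := by
        field_simp
        ring
      rwa [h5] at h4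
    · intro g _
      refine (V.norm_orthogonalProjectionOnto_apply_le _).trans ?_
      rw [norm_unitary_apply, hΩ]
    · intro g hg k' hk' hne
      -- distances to V
      have hkey : ∀ g ∈ K, ‖(((g : unitary (H →L[ℂ] H)) : H →L[ℂ] H) Ω) -
          V.starProjection (((g : unitary (H →L[ℂ] H)) : H →L[ℂ] H) Ω)‖ ≤ c / 4 * (3 / 4) := by
        intro g hg
        obtain ⟨v, hv, hv2⟩ := hdist g
        have h5 := norm_sub_starProj_le V (((g : unitary (H →L[ℂ] H)) : H →L[ℂ] H) Ω) v hv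
        have h6 : ψ0 g ≤ ε := by
          have := hK g hg
          have h7 := hψ0.nonneg g⁻¹
          simp only [hψdef] at this
          linarith
        have h7 : ‖(((g : unitary (H →L[ℂ] H)) : H →L[ℂ] H) Ω) - v‖ ^ 2 ≤
            (c / 4 * (3 / 4)) ^ 2 := by
          refine (hv2.trans h6).trans ?_
          rw [hεdef]
          nlinarith
        exact h5.trans (abs_le_of_sq_le_sq' h7 (by positivity)).2
      have h5 := hkey g hg
      have h6 := hkey k' hk'
      have h7 : c ≤ ‖(((g : unitary (H →L[ℂ] H)) : H →L[ℂ] H) Ω) -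
          (((k' : unitary (H →L[ℂ] H)) : H →L[ℂ] H) Ω)‖ := by
        have hne' : ((k'⁻¹ * g : Γ) : unitary (H →L[ℂ] H)) ≠ 1 := by
          intro h0
          have h0' : k'⁻¹ * g = 1 := by exact_mod_cast h0
          exact hne (inv_mul_eq_one.mp h0').symm
        have h8 := hsep _ (k'⁻¹ * g).2 hne'
        refine h8.trans (le_of_eq ?_)
        rw [← norm_unitary_apply (k' : unitary (H →L[ℂ] H))
          (((((k'⁻¹ * g : Γ) : unitary (H →L[ℂ] H))) : H →L[ℂ] H) Ω - Ω), map_sub]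
        congr 2
        rw [← mul_apply_eq_comp]
        congr 1
        have h9 : (k' : unitary (H →L[ℂ] H)) * ((k'⁻¹ * g : Γ) : unitary (H →L[ℂ] H)) =
            (g : unitary (H →L[ℂ] H)) := by
          rw [← Subgroup.coe_mul, mul_inv_cancel_left]
        have h10 := congrArg (fun u : unitary (H →L[ℂ] H) => (u : H →L[ℂ] H)) h9
        exact h10
      set x := (((g : unitary (H →L[ℂ] H)) : H →L[ℂ] H) Ω) with hx
      set y := (((k' : unitary (H →L[ℂ] H)) : H →L[ℂ] H) Ω) with hy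
      have h8 : ‖x - y‖ ≤ ‖x - V.starProjection x‖ +
          ‖V.starProjection x - V.starProjection y‖ + ‖y - V.starProjection y‖ := by
        have : x - y = (x - V.starProjection x) + (V.starProjection x - V.starProjection y) -
            (y - V.starProjection y) := by abel
        rw [this]
        refine (norm_sub_le _ _).trans ?_
        gcongr
        exact norm_add_le _ _
      have h9 : ‖V.starProjection x - V.starProjection y‖ =
          ‖V.orthogonalProjectionOnto x - V.orthogonalProjectionOnto y‖ := by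
        rfl
      rw [← h9]
      linarith
  have hpow : 2 ^ j * σ ≤ ε / 2 := crit_pow C D ε _ hCpos hDpos hε hj2
  obtain ⟨T, f, hf0, hfT, hfpos, hfinv⟩ := h2 Γ S ψ σ ε ζ B j hS1 hSinv hψ
    (fun g => by simp only [hψdef, inv_inv]; ring) hψσ hε hζ hζ1 (Real.exp_pos _) hcard hpow
    (by simpa [mul_assoc] using hj1)
  have h4 := h3 Γ S T f (k ^ 2 * ζ) hf0 hfT hfpos hfinv
  exact AInv.mono' h4 hFS hfinal

end Pool.Agent.FAP
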