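import Pool.Agent.JM.Amen

/-!
# Fast approximation of discrete groups of unitaries: definitions
-/

set_option autoImplicit false

namespace Pool.Agent.FAP

universe u

variable {H : Type u} [NormedAddCommGroup H] [InnerProductSpace ℂ H] [CompleteSpace H]

/-- The unit vector `Ω` is a trace vector of the star algebra `M` of bounded operators, and it
separates `M`. -/
structure TraceVec (M : StarSubalgebra ℂ (H →L[ℂ] H)) (Ω : H) : Prop where
  norm_one : ‖Ω‖ = 1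
  trace : ∀ x ∈ M, ∀ y ∈ M, inner ℂ Ω ((x * y) Ω) = inner ℂ Ω ((y * x) Ω)
  sep : ∀ x ∈ M, x Ω = 0 → x = 0

/-- `Φ` maps `M` to `M`, is unital, contracts the norm `‖x Ω‖` and is completely positive (with
respect to the vectors of `M Ω`). -/
structure UCP (M : StarSubalgebra ℂ (H →L[ℂ] H)) (Ω : H)
    (Φ : (H →L[ℂ] H) →ₗ[ℂ] (H →L[ℂ] H)) : Prop where
  mem : ∀ x ∈ M, Φ x ∈ M
  one : Φ 1 = 1
  contr : ∀ x ∈ M, ‖Φ x Ω‖ ≤ ‖x Ω‖
  cp : ∀ (n : ℕ) (a b : Fin n → H →L[ℂ] H), (∀ i, a i ∈ M) → (∀ i, b i ∈ M) →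
    0 ≤ (∑ i, ∑ j, inner ℂ (a i Ω) (Φ (star (b i) * b j) (a j Ω))).re

/-- `ψ` vanishes at `1`, is nonnegative and conditionally negative definite. -/
structure CND {G : Type u} [Group G] (ψ : G → ℝ) : Prop where
  one : ψ 1 = 0
  nonneg : ∀ g, 0 ≤ ψ g
  neg : ∀ (s : Finset G) (c : G → ℝ), ∑ g ∈ s, c g = 0 →
    ∑ g ∈ s, ∑ h ∈ s, c g * c h * ψ (g⁻¹ * h) ≤ 0

end Pool.Agent.FAP
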