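import Pool.Agent.FAP.Targets

/-!
# The conditional expectation onto a finite-dimensional star subalgebra
-/

set_option autoImplicit false

namespace Pool.Agent.FAP

open scoped ComplexOrder InnerProductSpace

universe u

section

variable {H : Type u} [NormedAddCommGroup H] [InnerProductSpace ℂ H] [CompleteSpace H]

theorem inner_star_left (x : H →L[ℂ] H) (v w : H) : ⟪star x v, w⟫_ℂ = ⟪v, x w⟫_ℂ := by
  rw [ContinuousLinearMap.star_eq_adjoint, ContinuousLinearMap.adjoint_inner_left]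

theorem inner_star_right (x : H →L[ℂ] H) (v w : H) : ⟪v, star x w⟫_ℂ = ⟪x v, w⟫_ℂ := by
  rw [ContinuousLinearMap.star_eq_adjoint, ContinuousLinearMap.adjoint_inner_right]

/-- A finite family in `N` which is an orthonormal basis of `N Ω`, with the projection. -/
theorem exists_frame (M N : StarSubalgebra ℂ (H →L[ℂ] H)) (Ω : H) (hM : TraceVec M Ω)
    (hNM : N ≤ M) (hfin : FiniteDimensional ℂ N) :
    ∃ (d : ℕ) (n : Fin d → H →L[ℂ] H) (Φ : (H →L[ℂ] H) →ₗ[ℂ] (H →L[ℂ] H)),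
      (∀ a, n a ∈ N) ∧ (∀ y ∈ N, y = ∑ a, ⟪n a Ω, y Ω⟫_ℂ • n a) ∧
      (∀ x, Φ x ∈ N) ∧ (∀ y ∈ N, Φ y = y) ∧ (∀ x, ∀ y ∈ N, ⟪y Ω, x Ω - Φ x Ω⟫_ℂ = 0) ∧
      (∀ x, ‖Φ x Ω‖ ≤ ‖x Ω‖) := by
  let Ns : Submodule ℂ (H →L[ℂ] H) := Subalgebra.toSubmodule N.toSubalgebra
  have hfinNs : FiniteDimensional ℂ Ns := hfin
  let ev : (H →L[ℂ] H) →ₗ[ℂ] H :=
    (ContinuousLinearMap.apply ℂ H Ω : (H →L[ℂ] H) →L[ℂ] H).toLinearMap
  have hev : ∀ x : H →L[ℂ] H, ev x = x Ω := fun x => rfl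
  let evN : Ns →ₗ[ℂ] H := ev.comp Ns.subtype
  have hinj : Function.Injective evN := by
    rw [← LinearMap.ker_eq_bot, LinearMap.ker_eq_bot']
    intro y hy
    have h1 : (y : H →L[ℂ] H) Ω = 0 := hy
    exact Subtype.ext (hM.sep _ (hNM y.2) h1)
  let V : Submodule ℂ H := LinearMap.range evN
  let e : Ns ≃ₗ[ℂ] V := LinearEquiv.ofInjective evN hinj
  have he : ∀ y : Ns, ((e y : V) : H) = (y : H →L[ℂ] H) Ω := fun y => rfl
  have hes : ∀ v : V, ((e.symm v : Ns) : H →L[ℂ] H) Ω = v := by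
    intro v
    rw [← he, LinearEquiv.apply_symm_apply]
  have hfinV : FiniteDimensional ℂ V := inferInstance
  let b := stdOrthonormalBasis ℂ V
  let Φ : (H →L[ℂ] H) →ₗ[ℂ] (H →L[ℂ] H) :=
    Ns.subtype.comp (e.symm.toLinearMap.comp
      ((V.orthogonalProjectionOnto : H →L[ℂ] V).toLinearMap.comp ev))
  have hΦ : ∀ x, Φ x Ω = (V.orthogonalProjectionOnto (x Ω) : H) := by
    intro x
    exact hes _
  have hΦN : ∀ x, Φ x ∈ N := fun x => (e.symm (V.orthogonalProjectionOnto (ev x))).2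
  have hVN : ∀ y ∈ N, y Ω ∈ V := fun y hy => ⟨⟨y, hy⟩, rfl⟩
  refine ⟨Module.finrank ℂ V, fun a => ((e.symm (b a) : Ns) : H →L[ℂ] H), Φ, ?_, ?_, hΦN, ?_, ?_,
    ?_⟩
  · intro a
    exact (e.symm (b a)).2
  · intro y hy
    have h1 : y - ∑ a, ⟪((e.symm (b a) : Ns) : H →L[ℂ] H) Ω, y Ω⟫_ℂ •
        ((e.symm (b a) : Ns) : H →L[ℂ] H) = 0 := by
      apply hM.sep
      · apply hNM
        refine sub_mem hy (sum_mem fun a _ => ?_)
        exact SMulMemClass.smul_mem _ (e.symm (b a)).2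
      · rw [sub_apply, sum_apply]
        simp only [smul_apply, hes]
        have h2 := congrArg (fun v : V => (v : H)) (b.sum_repr ⟨y Ω, hVN y hy⟩)
        simp only [Submodule.coe_sum, Submodule.coe_smul, OrthonormalBasis.repr_apply_apply,
          Submodule.coe_inner] at h2
        rw [h2, sub_self]
    exact sub_eq_zero.mp h1
  · intro y hy
    have h1 : Φ y - y = 0 := by
      apply hM.sep _ (sub_mem (hNM (hΦN y)) (hNM hy))
      have h2 : V.starProjection (y Ω) = y Ω :=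
        Submodule.starProjection_eq_self_iff.mpr (hVN y hy)
      rw [sub_apply, hΦ]
      exact sub_eq_zero.mpr h2
    exact sub_eq_zero.mp h1
  · intro x y hy
    rw [hΦ]
    have h1 := V.sub_starProjection_mem_orthogonal (x Ω)
    exact h1 _ (hVN y hy)
  · intro x
    rw [hΦ]
    exact V.norm_orthogonalProjectionOnto_apply_le (x Ω)

/-- The square root of the inverse of the central element `∑ a, n a * star (n a)` of `N`. -/
theorem exists_sqrt (N : StarSubalgebra ℂ (H →L[ℂ] H)) (hfin : FiniteDimensional ℂ N) (Ω : H)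
    (d : ℕ) (n : Fin d → H →L[ℂ] H) (hn : ∀ a, n a ∈ N)
    (hexp : ∀ y ∈ N, y = ∑ a, ⟪n a Ω, y Ω⟫_ℂ • n a) :
    ∃ q : H →L[ℂ] H, star q = q ∧ (∀ y ∈ N, q * y = y * q) ∧
      ∀ y ∈ N, y = ∑ k, ∑ l, ⟪n k Ω, y (n l Ω)⟫_ℂ • (q * n k * star (n l) * q) := by
  let W : H →L[ℂ] H := ∑ a, n a * star (n a)
  have hWN : W ∈ N := sum_mem fun a _ => mul_mem (hn a) (star_mem (hn a))
  have hyW : ∀ y ∈ N, y * W = ∑ k, ∑ l, ⟪n k Ω, y (n l Ω)⟫_ℂ • (n k * star (n l)) := by
    intro y hy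
    rw [Finset.sum_comm]
    simp only [W]
    rw [Finset.mul_sum]
    refine Finset.sum_congr rfl fun l _ => ?_
    rw [← mul_assoc]
    conv_lhs => rw [hexp (y * n l) (mul_mem hy (hn l))]
    rw [Finset.sum_mul]
    refine Finset.sum_congr rfl fun k _ => ?_
    rw [smul_mul_assoc]
    rfl
  have hWy : ∀ y ∈ N, W * y = ∑ k, ∑ l, ⟪n k Ω, y (n l Ω)⟫_ℂ • (n k * star (n l)) := by
    intro y hy
    simp only [W]
    rw [Finset.sum_mul]
    refine Finset.sum_congr rfl fun k _ => ?_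
    have h1 : star (n k) * y = star (star y * n k) := by rw [star_mul, star_star]
    have h2 : star (star y * n k) = ∑ l, ⟪n k Ω, y (n l Ω)⟫_ℂ • star (n l) := by
      conv_lhs => rw [hexp (star y * n k) (mul_mem (star_mem hy) (hn k))]
      rw [star_sum]
      refine Finset.sum_congr rfl fun l _ => ?_
      rw [star_smul]
      congr 1
      rw [RCLike.star_def, inner_conj_symm]
      exact inner_star_left y _ _
    rw [mul_assoc, h1, h2, Finset.mul_sum]
    refine Finset.sum_congr rfl fun l _ => ?_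
    rw [mul_smul_comm]
  have hcomm : ∀ y ∈ N, W * y = y * W := fun y hy => by rw [hyW y hy, hWy y hy]
  have hWs : star W = W := by
    simp only [W]
    rw [star_sum]
    refine Finset.sum_congr rfl fun a _ => ?_
    rw [star_mul, star_star]
  have hW0 : 0 ≤ W := Finset.sum_nonneg fun a _ => mul_star_self_nonneg (n a)
  -- left multiplication by `W` is injective on `N`
  have hinj : ∀ y ∈ N, W * y = 0 → y = 0 := by
    intro y hy h0
    have h1 : ∀ a, star (n a) * y = 0 := by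
      intro a
      ext ξ
      have h2 : ∑ a, ‖(star (n a) * y) ξ‖ ^ 2 = 0 := by
        have h3 : (⟪y ξ, (W * y) ξ⟫_ℂ) = ((∑ a, ‖(star (n a) * y) ξ‖ ^ 2 : ℝ) : ℂ) := by
          simp only [W]
          rw [Finset.sum_mul, sum_apply, inner_sum]
          rw [Complex.ofReal_sum]
          refine Finset.sum_congr rfl fun a _ => ?_
          show ⟪y ξ, n a ((star (n a) * y) ξ)⟫_ℂ = _
          rw [← inner_star_left]
          show ⟪(star (n a) * y) ξ, (star (n a) * y) ξ⟫_ℂ = _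
          rw [inner_self_eq_norm_sq_to_K, Complex.ofReal_pow]
          rfl
        rw [h0] at h3
        have h4 : (⟪y ξ, (0 : H →L[ℂ] H) ξ⟫_ℂ) = 0 := by simp
        rw [h4] at h3
        exact_mod_cast h3.symm
      have h5 := (Finset.sum_eq_zero_iff_of_nonneg fun a _ => by positivity).mp h2 a
        (Finset.mem_univ a)
      have h6 : ‖(star (n a) * y) ξ‖ = 0 := by
        exact pow_eq_zero_iff (two_ne_zero) |>.mp h5
      simpa using h6
    have h2 := hexp 1 (one_mem N)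
    have h3 : y = star (1 : H →L[ℂ] H) * y := by rw [star_one, one_mul]
    rw [h3, h2, star_sum, Finset.sum_mul]
    refine Finset.sum_eq_zero fun a _ => ?_
    rw [star_smul, smul_mul_assoc, h1 a, smul_zero]
  -- the inverse
  obtain ⟨W', hW'N, hWW'⟩ : ∃ W' ∈ N, W * W' = 1 := by
    let Ns : Submodule ℂ (H →L[ℂ] H) := Subalgebra.toSubmodule N.toSubalgebra
    have hfinNs : FiniteDimensional ℂ Ns := hfin
    let L : Ns →ₗ[ℂ] Ns :=
      { toFun := fun y => ⟨W * y, N.mul_mem hWN y.2⟩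
        map_add' := fun y z => Subtype.ext (mul_add _ _ _)
        map_smul' := fun c y => Subtype.ext (mul_smul_comm _ _ _) }
    have hL : Function.Injective L := by
      rw [← LinearMap.ker_eq_bot, LinearMap.ker_eq_bot']
      intro y hy
      have h1 : W * (y : H →L[ℂ] H) = 0 := congrArg Subtype.val hy
      exact Subtype.ext (hinj _ y.2 h1)
    obtain ⟨y, hy⟩ := LinearMap.injective_iff_surjective.mp hL ⟨1, one_mem N⟩
    exact ⟨y, y.2, congrArg Subtype.val hy⟩
  have hW'W : W' * W = 1 := by rw [← hcomm W' hW'N, hWW']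
  have hW's : star W' = W' := by
    have h1 : star W' * W = 1 := by
      have h2 := congrArg star hWW'
      rwa [star_mul, hWs, star_one] at h2
    calc star W' = star W' * (W * W') := by rw [hWW', mul_one]
      _ = W' := by rw [← mul_assoc, h1, one_mul]
  have hW'0 : 0 ≤ W' := by
    have h1 := star_left_conjugate_nonneg hW0 W'
    rwa [hW's, hW'W, one_mul] at h1
  have hW'c : ∀ y ∈ N, W' * y = y * W' := by
    intro y hy
    calc W' * y = W' * y * (W * W') := by rw [hWW', mul_one]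
      _ = W' * (y * W) * W' := by simp only [mul_assoc]
      _ = W' * (W * y) * W' := by rw [hcomm y hy]
      _ = (W' * W) * (y * W') := by simp only [mul_assoc]
      _ = y * W' := by rw [hW'W, one_mul]
  have hq0 : 0 ≤ CFC.sqrt W' := CFC.sqrt_nonneg W'
  have hqq : CFC.sqrt W' * CFC.sqrt W' = W' := CFC.sqrt_mul_sqrt_self W' hW'0
  have hqc : ∀ y ∈ N, CFC.sqrt W' * y = y * CFC.sqrt W' := by
    intro y hy
    have h1 : Commute W' y := hW'c y hy
    exact (h1.cfcₙ_nnreal _).eq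
  refine ⟨CFC.sqrt W', (IsSelfAdjoint.of_nonneg hq0).star_eq, hqc, ?_⟩
  intro y hy
  calc y = (W' * W) * y := by rw [hW'W, one_mul]
    _ = W' * (y * W) := by rw [mul_assoc, hcomm y hy]
    _ = _ := by
      rw [hyW y hy, Finset.mul_sum]
      refine Finset.sum_congr rfl fun k _ => ?_
      rw [Finset.mul_sum]
      refine Finset.sum_congr rfl fun l _ => ?_
      rw [mul_smul_comm]
      congr 1
      have h1 := hqc (n k * star (n l)) (mul_mem (hn k) (star_mem (hn l)))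
      calc W' * (n k * star (n l)) = CFC.sqrt W' * CFC.sqrt W' * (n k * star (n l)) := by rw [hqq]
        _ = CFC.sqrt W' * (CFC.sqrt W' * (n k * star (n l))) := by rw [mul_assoc]
        _ = CFC.sqrt W' * ((n k * star (n l)) * CFC.sqrt W') := by rw [h1]
        _ = _ := by simp only [mul_assoc]

theorem exp_holds (h : tPD.{u}) : tEXP.{u} := by
  intro H _ _ _ M N Ω hM hNM hfin
  obtain ⟨d, n, Φ, hn, hexp, hΦN, hΦid, hΦo, hΦc⟩ := exists_frame M N Ω hM hNM hfin
  obtain ⟨q, hqs, hqc, hq⟩ := exists_sqrt N hfin Ω d n hn hexp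
  -- module property
  have hmod : ∀ x ∈ M, ∀ z ∈ N, ∀ y ∈ N, ⟪z Ω, Φ x (y Ω)⟫_ℂ = ⟪z Ω, x (y Ω)⟫_ℂ := by
    intro x hx z hz y hy
    have key : ∀ w ∈ M, ⟪z Ω, w (y Ω)⟫_ℂ = ⟪(z * star y) Ω, w Ω⟫_ℂ := by
      intro w hw
      have h1 : ⟪z Ω, w (y Ω)⟫_ℂ = ⟪Ω, ((star z * w) * y) Ω⟫_ℂ := by
        show _ = ⟪Ω, star z (w (y Ω))⟫_ℂ
        rw [inner_star_right]
      have h2 : ⟪(z * star y) Ω, w Ω⟫_ℂ = ⟪Ω, (y * (star z * w)) Ω⟫_ℂ := by
        have h3 : ⟪Ω, (star (z * star y) * w) Ω⟫_ℂ = ⟪(z * star y) Ω, w Ω⟫_ℂ := by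
          show ⟪Ω, star (z * star y) (w Ω)⟫_ℂ = _
          rw [inner_star_right]
        rw [← h3, star_mul, star_star, mul_assoc]
      rw [h1, h2, hM.trace _ (mul_mem (star_mem (hNM hz)) hw) _ (hNM hy)]
    rw [key x hx, key (Φ x) (hNM (hΦN x))]
    have h4 := hΦo x (z * star y) (mul_mem hz (star_mem hy))
    rw [inner_sub_right, sub_eq_zero] at h4
    exact h4.symm
  refine ⟨Φ, ⟨fun x _ => hNM (hΦN x), hΦid 1 (one_mem N), fun x _ => hΦc x, ?_⟩, hΦN, hΦo⟩
  intro m a b ha hb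
  have h1 := h H (Fin m) (Fin d) (fun i k => (b i * n k) Ω) (fun i k => star (n k) (q (a i Ω)))
  convert h1 using 4 with i _ j _
  have h2 := hq (Φ (star (b i) * b j)) (hΦN _)
  conv_lhs => rw [h2]
  rw [sum_apply, inner_sum]
  refine Finset.sum_congr rfl fun k _ => ?_
  rw [sum_apply, inner_sum]
  refine Finset.sum_congr rfl fun l _ => ?_
  rw [smul_apply, inner_smul_right]
  congr 1
  · rw [hmod _ (mul_mem (star_mem (hb i)) (hb j)) _ (hn k) _ (hn l)]
    show ⟪n k Ω, star (b i) (b j (n l Ω))⟫_ℂ = _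
    rw [inner_star_right]
    rfl
  · show ⟪a i Ω, q (n k (star (n l) (q (a j Ω))))⟫_ℂ = _
    have h3 : ∀ v w : H, ⟪v, q w⟫_ℂ = ⟪q v, w⟫_ℂ := by
      intro v w
      conv_lhs => rw [← hqs]
      rw [inner_star_right]
    rw [h3, inner_star_left]

end

end Pool.Agent.FAP
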