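import Pool.Agent.FAP.Targets

/-!
# FAP-FIN: fast approximation by finite-dimensional star subalgebras
-/

set_option autoImplicit false

namespace Pool.Agent.FAP

open Pool.Agent.JM

universe u

namespace FIN_

variable {H : Type u} [NormedAddCommGroup H] [InnerProductSpace ℂ H]

theorem pyth {a p q : H} (ha : ‖a‖ = 1) (h1 : inner ℂ p (a - p) = 0)
    (h2 : inner ℂ (p - q) (a - p) = 0) : 1 - (inner ℂ a p).re ≤ ‖a - q‖ ^ 2 := by
  have e1 : (inner ℂ a p).re = ‖p‖ ^ 2 := by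
    have h3 : inner ℂ p a = inner ℂ p p := by
      have h4 : inner ℂ p (a - p) = inner ℂ p a - inner ℂ p p := inner_sub_right _ _ _
      rw [h1] at h4
      exact (sub_eq_zero.1 h4.symm)
    have h5 : (inner ℂ a p).re = (inner ℂ p a).re := by
      rw [← inner_conj_symm a p, Complex.conj_re]
    rw [h5, h3, inner_self_eq_norm_sq_to_K]
    norm_cast
  have e2 : ‖a‖ ^ 2 = ‖p‖ ^ 2 + ‖a - p‖ ^ 2 := by
    have h3 := norm_add_sq (𝕜 := ℂ) p (a - p)
    rw [h1, add_sub_cancel] at h3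
    simpa using h3
  have e3 : ‖a - q‖ ^ 2 = ‖p - q‖ ^ 2 + ‖a - p‖ ^ 2 := by
    have h3 := norm_add_sq (𝕜 := ℂ) (p - q) (a - p)
    rw [h2, show p - q + (a - p) = a - q by abel] at h3
    simpa using h3
  rw [e1, e3]
  rw [ha] at e2
  nlinarith [sq_nonneg ‖p - q‖]

/-- evaluation at a vector -/
def ev (Ω : H) : (H →L[ℂ] H) →ₗ[ℂ] H where
  toFun T := T Ω
  map_add' S T := rfl
  map_smul' c T := by simp

end FIN_

open FIN_

/-- FIN -/
theorem fin_holds (h1 : tUCP.{u}) (h2 : tEXP.{u}) : tFIN.{u} := by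
  intro H _ _ _ M Ω hT Γ hΓ hsep hap
  refine h1 H M Ω hT.norm_one hT.trace Γ hΓ hsep fun F η hF hη => ?_
  obtain ⟨N, hN, hfin, hap'⟩ := hap F η hF hη
  obtain ⟨Φ, hU, hΦN, horth⟩ := h2 H M N Ω hT hN hfin
  have hfin' : FiniteDimensional ℂ N.toSubalgebra.toSubmodule := hfin
  have hle : Module.finrank ℂ (Submodule.map (ev Ω) N.toSubalgebra.toSubmodule) ≤
      Module.finrank ℂ N := Submodule.finrank_map_le (ev Ω) N.toSubalgebra.toSubmodule
  refine ⟨Φ, Submodule.map (ev Ω) N.toSubalgebra.toSubmodule, inferInstance, hU,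
    fun x _ => ⟨Φ x, hΦN x, rfl⟩, fun w hw => ?_⟩
  obtain ⟨y, hy, hyη⟩ := hap' w hw
  have ha : ‖(w : H →L[ℂ] H) Ω‖ = 1 := by
    rw [ContinuousLinearMap.norm_map_of_mem_unitary w.2, hT.norm_one]
  have h3 := pyth (a := (w : H →L[ℂ] H) Ω) (p := Φ (w : H →L[ℂ] H) Ω) (q := y Ω) ha
    (horth _ _ (hΦN _)) (by
      have h4 := horth (w : H →L[ℂ] H) (Φ (w : H →L[ℂ] H) - y) (sub_mem (hΦN _) hy)
      exact h4)
  refine le_trans ?_ hyη
  have h5 : ((Module.finrank ℂ (Submodule.map (ev Ω) N.toSubalgebra.toSubmodule) : ℕ) : ℝ) ≤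
      (Module.finrank ℂ N : ℝ) := by exact_mod_cast hle
  refine (mul_le_mul_of_nonneg_left h3 (Nat.cast_nonneg _)).trans ?_
  exact mul_le_mul_of_nonneg_right h5 (by positivity)

end Pool.Agent.FAP
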