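import Pool.Agent.FAP.Targets

/-!
# PACK: separated points in the unit ball of a finite-dimensional Hilbert space
-/

set_option autoImplicit false

namespace Pool.Agent.FAP

open MeasureTheory Metric Set Module
open scoped ENNReal

universe u

open scoped Function in
theorem pack_aux {E : Type*} [NormedAddCommGroup E] [NormedSpace ℝ E] [FiniteDimensional ℝ E]
    (δ : ℝ) (hδ : 0 < δ) (s : Finset E) (hs : ∀ c ∈ s, ‖c‖ ≤ 1)
    (h : ∀ c ∈ s, ∀ d ∈ s, c ≠ d → δ ≤ ‖c - d‖) :
    (s.card : ℝ) ≤ (1 + 2 / δ) ^ finrank ℝ E := by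
  borelize E
  let μ : Measure E := Measure.addHaar
  set ρ : ℝ := 1 + δ / 2 with hρ
  have ρpos : 0 < ρ := by positivity
  have δpos : 0 < δ / 2 := by positivity
  set A := ⋃ c ∈ s, ball (c : E) (δ / 2) with hA
  have D : Set.Pairwise (s : Set E) (Disjoint on fun c => ball (c : E) (δ / 2)) := by
    rintro c hc d hd hcd
    apply ball_disjoint_ball
    rw [dist_eq_norm]
    have := h c hc d hd hcd
    linarith
  have A_subset : A ⊆ ball (0 : E) ρ := by
    refine iUnion₂_subset fun x hx => ?_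
    apply ball_subset_ball'
    rw [dist_zero_right]
    have := hs x hx
    rw [hρ]
    linarith
  have I : (s.card : ℝ≥0∞) * ENNReal.ofReal ((δ / 2) ^ finrank ℝ E) * μ (ball 0 1) ≤
      ENNReal.ofReal (ρ ^ finrank ℝ E) * μ (ball 0 1) :=
    calc
      (s.card : ℝ≥0∞) * ENNReal.ofReal ((δ / 2) ^ finrank ℝ E) * μ (ball 0 1) = μ A := by
        rw [hA, measure_biUnion_finset D fun c _ => measurableSet_ball]
        simp only [μ.addHaar_ball_of_pos _ δpos]
        simp only [Finset.sum_const, nsmul_eq_mul, mul_assoc]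
      _ ≤ μ (ball (0 : E) ρ) := measure_mono A_subset
      _ = ENNReal.ofReal (ρ ^ finrank ℝ E) * μ (ball 0 1) := by
        simp only [μ.addHaar_ball_of_pos _ ρpos]
  have J : (s.card : ℝ≥0∞) * ENNReal.ofReal ((δ / 2) ^ finrank ℝ E) ≤
      ENNReal.ofReal (ρ ^ finrank ℝ E) :=
    (ENNReal.mul_le_mul_iff_left (measure_ball_pos _ _ zero_lt_one).ne' measure_ball_lt_top.ne).1 I
  have K : (s.card : ℝ) * (δ / 2) ^ finrank ℝ E ≤ ρ ^ finrank ℝ E := by
    have := ENNReal.toReal_le_of_le_ofReal (pow_nonneg ρpos.le _) J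
    rwa [ENNReal.toReal_mul, ENNReal.toReal_natCast,
      ENNReal.toReal_ofReal (pow_nonneg δpos.le _)] at this
  have hpow : (0 : ℝ) < (δ / 2) ^ finrank ℝ E := pow_pos δpos _
  have e : (1 + 2 / δ) ^ finrank ℝ E = ρ ^ finrank ℝ E / (δ / 2) ^ finrank ℝ E := by
    rw [← div_pow, hρ]
    congr 1
    field_simp
    ring
  rw [e, le_div_iff₀ hpow]
  exact K

theorem pack_holds : tPACK.{u} := by
  classical
  intro V _ _ _ δ ι s f hδ hf hsep
  have : FiniteDimensional ℝ V := FiniteDimensional.complexToReal V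
  have hinj : Set.InjOn f (s : Set ι) := by
    intro i hi j hj hij
    by_contra hne
    have := hsep i hi j hj hne
    rw [hij, sub_self, norm_zero] at this
    linarith
  have hcard : (s.image f).card = s.card := Finset.card_image_of_injOn hinj
  have key := pack_aux (E := V) δ hδ (s.image f) (by
    intro c hc
    obtain ⟨i, hi, rfl⟩ := Finset.mem_image.1 hc
    exact hf i hi) (by
    intro c hc d hd hcd
    obtain ⟨i, hi, rfl⟩ := Finset.mem_image.1 hc
    obtain ⟨j, hj, rfl⟩ := Finset.mem_image.1 hd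
    exact hsep i hi j hj (fun e => hcd (by rw [e])))
  rw [hcard, finrank_real_of_complex] at key
  exact key

end Pool.Agent.FAP
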