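import Pool.Agent.FAP.Targets

/-!
# Fast approximation of discrete groups of unitaries: unital completely positive maps

From the criterion `tCRIT` we deduce `tUCP`: `ψ g = 2 (1 - Re ⟨g Ω, Φ(g) Ω⟩)` is conditionally
negative definite and dominates the squared distance from `g Ω` to the space `V`.
-/

set_option autoImplicit false

namespace Pool.Agent.FAP

open Pool.Agent.JM

universe u

section

variable {H : Type u} [NormedAddCommGroup H] [InnerProductSpace ℂ H] [CompleteSpace H]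

/-- Moving an operator to the other side of the inner product. -/
theorem ucp_star_left (A : H →L[ℂ] H) (x y : H) :
    inner ℂ (star A x) y = inner ℂ x (A y) := by
  rw [ContinuousLinearMap.star_eq_adjoint, ContinuousLinearMap.adjoint_inner_left]

/-- Moving an operator to the other side of the inner product. -/
theorem ucp_star_right (A : H →L[ℂ] H) (x y : H) :
    inner ℂ x (star A y) = inner ℂ (A x) y := by
  rw [ContinuousLinearMap.star_eq_adjoint, ContinuousLinearMap.adjoint_inner_right]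

/-- The key identity: `⟨(g* h) Ω, P Ω⟩ = ⟨g* Ω, P (h* Ω)⟩` for a trace vector `Ω`. -/
theorem ucp_key (M : StarSubalgebra ℂ (H →L[ℂ] H)) (Ω : H)
    (htr : ∀ x ∈ M, ∀ y ∈ M, inner ℂ Ω ((x * y) Ω) = inner ℂ Ω ((y * x) Ω))
    (A B P : H →L[ℂ] H) (hA : A ∈ M) (hB : B ∈ M) (hP : P ∈ M) :
    inner ℂ ((star A * B) Ω) (P Ω) = inner ℂ (star A Ω) (P (star B Ω)) := by
  have h1 : inner ℂ ((star A * B) Ω) (P Ω) = inner ℂ Ω ((star B * (A * P)) Ω) := by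
    have : (star A * B) = star (star B * A) := by simp
    rw [this, ucp_star_left]
    rw [← mul_assoc]
    rfl
  have h2 : inner ℂ (star A Ω) (P (star B Ω)) = inner ℂ Ω (((A * P) * star B) Ω) := by
    rw [ucp_star_left]
    rfl
  rw [h1, h2]
  exact htr _ (star_mem hB) _ (mul_mem hA hP)

/-- The function `ψ g = 2 (1 - Re ⟨g Ω, Φ(g) Ω⟩)` is conditionally negative definite. -/
theorem ucp_cnd (M : StarSubalgebra ℂ (H →L[ℂ] H)) (Ω : H) (hΩ : ‖Ω‖ = 1)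
    (htr : ∀ x ∈ M, ∀ y ∈ M, inner ℂ Ω ((x * y) Ω) = inner ℂ Ω ((y * x) Ω))
    (Γ : Subgroup (unitary (H →L[ℂ] H))) (hΓ : ∀ u ∈ Γ, (u : H →L[ℂ] H) ∈ M)
    (Φ : (H →L[ℂ] H) →ₗ[ℂ] (H →L[ℂ] H)) (hΦ : UCP M Ω Φ) :
    CND (fun g : Γ => 2 * (1 - (inner ℂ (((g : unitary (H →L[ℂ] H)) : H →L[ℂ] H) Ω)
      (Φ ((g : unitary (H →L[ℂ] H)) : H →L[ℂ] H) Ω)).re)) := by
  have hM : ∀ g : Γ, ((g : unitary (H →L[ℂ] H)) : H →L[ℂ] H) ∈ M := fun g => hΓ _ g.2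
  have hN : ∀ g : Γ, ‖((g : unitary (H →L[ℂ] H)) : H →L[ℂ] H) Ω‖ = 1 := fun g => by
    rw [ContinuousLinearMap.norm_map_of_mem_unitary (g : unitary (H →L[ℂ] H)).2, hΩ]
  refine ⟨?_, ?_, ?_⟩
  · simp [hΦ.one, hΩ]
  · intro g
    have h1 : (inner ℂ (((g : unitary (H →L[ℂ] H)) : H →L[ℂ] H) Ω)
        (Φ ((g : unitary (H →L[ℂ] H)) : H →L[ℂ] H) Ω)).re ≤ 1 := by
      refine (Complex.re_le_norm _).trans ((norm_inner_le_norm _ _).trans ?_)
      have h2 := hΦ.contr _ (hM g)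
      rw [hN g] at h2 ⊢
      linarith
    show 0 ≤ 2 * (1 - _)
    linarith
  · intro s c hc
    -- the sum over the finset is a sum over `Fin s.card`
    let e : Fin s.card ≃ s := s.equivFin.symm
    have hsum : ∀ f : Γ → ℝ, ∑ g ∈ s, f g = ∑ i, f (e i : Γ) := fun f => by
      rw [← Finset.sum_coe_sort s f]
      exact (Equiv.sum_comp e (fun x : s => f (x : Γ))).symm
    have hcp := hΦ.cp s.card
      (fun i => (c (e i : Γ) : ℂ) • star (((e i : Γ) : unitary (H →L[ℂ] H)) : H →L[ℂ] H))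
      (fun i => (((e i : Γ) : unitary (H →L[ℂ] H)) : H →L[ℂ] H))
      (fun i => M.smul_mem (star_mem (hM _)) _) (fun i => hM _)
    have hterm : ∀ g h : Γ, (inner ℂ
        (((c g : ℂ) • star ((g : unitary (H →L[ℂ] H)) : H →L[ℂ] H)) Ω)
        (Φ (star ((g : unitary (H →L[ℂ] H)) : H →L[ℂ] H) * ((h : unitary (H →L[ℂ] H)) : H →L[ℂ] H))
          (((c h : ℂ) • star ((h : unitary (H →L[ℂ] H)) : H →L[ℂ] H)) Ω))).re =
        c g * c h * (inner ℂ (((((g⁻¹ * h : Γ) : unitary (H →L[ℂ] H))) : H →L[ℂ] H) Ω)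
          (Φ ((((g⁻¹ * h : Γ) : unitary (H →L[ℂ] H))) : H →L[ℂ] H) Ω)).re := by
      intro g h
      have h0 : ((((g⁻¹ * h : Γ) : unitary (H →L[ℂ] H))) : H →L[ℂ] H) =
          star ((g : unitary (H →L[ℂ] H)) : H →L[ℂ] H) *
            ((h : unitary (H →L[ℂ] H)) : H →L[ℂ] H) := rfl
      rw [h0, ucp_key M Ω htr _ _ _ (hM g) (hM h) (hΦ.mem _ (mul_mem (star_mem (hM g)) (hM h)))]
      rw [smul_apply, smul_apply, map_smul,
        inner_smul_left, inner_smul_right, Complex.conj_ofReal, ← mul_assoc, ← Complex.ofReal_mul,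
        Complex.re_ofReal_mul]
    have hcp2 : 0 ≤ ∑ g ∈ s, ∑ h ∈ s, c g * c h *
        (inner ℂ (((((g⁻¹ * h : Γ) : unitary (H →L[ℂ] H))) : H →L[ℂ] H) Ω)
          (Φ ((((g⁻¹ * h : Γ) : unitary (H →L[ℂ] H))) : H →L[ℂ] H) Ω)).re := by
      refine hcp.trans (le_of_eq ?_)
      rw [Complex.re_sum, hsum]
      refine Finset.sum_congr rfl fun i _ => ?_
      rw [Complex.re_sum, hsum]
      exact Finset.sum_congr rfl fun j _ => hterm _ _
    have hsplit : ∑ g ∈ s, ∑ h ∈ s, c g * c h * (2 * (1 -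
        (inner ℂ (((((g⁻¹ * h : Γ) : unitary (H →L[ℂ] H))) : H →L[ℂ] H) Ω)
          (Φ ((((g⁻¹ * h : Γ) : unitary (H →L[ℂ] H))) : H →L[ℂ] H) Ω)).re)) =
        2 * ((∑ g ∈ s, c g) * ∑ h ∈ s, c h) - 2 * ∑ g ∈ s, ∑ h ∈ s, c g * c h *
        (inner ℂ (((((g⁻¹ * h : Γ) : unitary (H →L[ℂ] H))) : H →L[ℂ] H) Ω)
          (Φ ((((g⁻¹ * h : Γ) : unitary (H →L[ℂ] H))) : H →L[ℂ] H) Ω)).re := by
      rw [Finset.sum_mul_sum, Finset.mul_sum, Finset.mul_sum, ← Finset.sum_sub_distrib]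
      refine Finset.sum_congr rfl fun g _ => ?_
      rw [Finset.mul_sum, Finset.mul_sum, ← Finset.sum_sub_distrib]
      exact Finset.sum_congr rfl fun h _ => by ring
    show ∑ g ∈ s, ∑ h ∈ s, c g * c h * (2 * (1 -
        (inner ℂ (((((g⁻¹ * h : Γ) : unitary (H →L[ℂ] H))) : H →L[ℂ] H) Ω)
          (Φ ((((g⁻¹ * h : Γ) : unitary (H →L[ℂ] H))) : H →L[ℂ] H) Ω)).re)) ≤ 0
    rw [hsplit, hc]
    linarith

omit [CompleteSpace H] in
/-- `‖x - v‖² ≤ 2 (1 - Re ⟨x, v⟩)` when `‖x‖ = 1` and `‖v‖ ≤ 1`. -/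
theorem ucp_dist (x v : H) (hx : ‖x‖ = 1) (hv : ‖v‖ ≤ 1) :
    ‖x - v‖ ^ 2 ≤ 2 * (1 - (inner ℂ x v).re) := by
  have h1 : ‖x - v‖ ^ 2 = ‖x‖ ^ 2 - 2 * (inner ℂ x v).re + ‖v‖ ^ 2 := by
    rw [@norm_sub_sq ℂ]; rfl
  have h2 : ‖v‖ ^ 2 ≤ 1 := by
    have := norm_nonneg v
    nlinarith
  rw [h1, hx]
  linarith

end

/-- UCP: approximation by unital completely positive maps of finite rank. -/
theorem ucp_holds (h : tCRIT.{u}) : tUCP.{u} := by
  intro H _ _ _ M Ω hΩ htr Γ hΓ hc happ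
  classical
  obtain ⟨c, hc0, hc⟩ := hc
  refine h H Ω Γ c hΩ hc0 hc ?_
  intro F η hη
  obtain ⟨Φ, V, hV, hΦ, hΦV, hF⟩ := happ (F.image fun g : Γ => (g : unitary (H →L[ℂ] H))) (η / 2)
    (by
      intro u hu
      rw [Finset.mem_image] at hu
      obtain ⟨g, _, rfl⟩ := hu
      exact g.2) (half_pos hη)
  refine ⟨V, hV, _, ucp_cnd M Ω hΩ htr Γ hΓ Φ hΦ, ?_, ?_⟩
  · intro g
    have hN : ‖((g : unitary (H →L[ℂ] H)) : H →L[ℂ] H) Ω‖ = 1 := by
      rw [ContinuousLinearMap.norm_map_of_mem_unitary (g : unitary (H →L[ℂ] H)).2, hΩ]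
    refine ⟨Φ ((g : unitary (H →L[ℂ] H)) : H →L[ℂ] H) Ω, hΦV _ (hΓ _ g.2), ?_⟩
    exact ucp_dist _ _ hN (by rw [← hN]; exact hΦ.contr _ (hΓ _ g.2))
  · intro u hu
    have h1 := hF _ (Finset.mem_image_of_mem (fun g : Γ => (g : unitary (H →L[ℂ] H))) hu)
    show (Module.finrank ℂ V : ℝ) * (2 * (1 - _)) ≤ η
    nlinarith [h1]

end Pool.Agent.FAP
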