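import Pool.Agent.FAP.Targets

/-!
# An almost invariant function from a conditionally negative definite function
-/

set_option autoImplicit false

namespace Pool.Agent.FAP

universe u

namespace WALK_

open Finset

variable {G : Type u} [Group G]

/-- the mean over the products of `m` elements of `S` -/
noncomputable def EE (S : Finset G) : ℕ → (G → ℝ) → ℝ
  | 0, φ => φ 1
  | m + 1, φ => (∑ s ∈ S, EE S m (fun g => φ (s * g))) / S.card

open Classical in
/-- the products of `m` elements of `S` -/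
noncomputable def TT (S : Finset G) : ℕ → Finset G
  | 0 => {1}
  | m + 1 => S.biUnion fun s => (TT S m).image (fun g => s * g)

variable (S : Finset G)

theorem EE_add (m : ℕ) (φ χ : G → ℝ) :
    EE S m (fun g => φ g + χ g) = EE S m φ + EE S m χ := by
  induction m generalizing φ χ with
  | zero => rfl
  | succ m ih =>
    simp only [EE]
    rw [← add_div, ← sum_add_distrib]
    congr 1
    exact sum_congr rfl fun s _ => ih _ _

theorem EE_mul (m : ℕ) (φ : G → ℝ) (c : ℝ) : EE S m (fun g => φ g * c) = EE S m φ * c := by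
  induction m generalizing φ with
  | zero => rfl
  | succ m ih =>
    simp only [EE]
    rw [div_mul_eq_mul_div, sum_mul]
    congr 1
    exact sum_congr rfl fun s _ => ih _

theorem EE_zero (m : ℕ) : EE S m (fun _ => (0 : ℝ)) = 0 := by
  have := EE_mul S m (fun _ => (0 : ℝ)) 0
  simpa using this

theorem EE_sum {ι : Type*} (t : Finset ι) (m : ℕ) (φ : ι → G → ℝ) :
    EE S m (fun g => ∑ i ∈ t, φ i g) = ∑ i ∈ t, EE S m (φ i) := by
  classical
  induction t using Finset.induction_on with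
  | empty => simpa using EE_zero S m
  | insert a t ha ih =>
    simp only [sum_insert ha]
    rw [EE_add, ih]

theorem EE_congr (m : ℕ) (φ χ : G → ℝ) (h : ∀ g ∈ TT S m, φ g = χ g) :
    EE S m φ = EE S m χ := by
  classical
  induction m generalizing φ χ with
  | zero => exact h 1 (by simp [TT])
  | succ m ih =>
    simp only [EE]
    congr 1
    refine sum_congr rfl fun s hs => ih _ _ fun g hg => h _ ?_
    rw [TT, mem_biUnion]
    exact ⟨s, hs, mem_image_of_mem _ hg⟩

theorem EE_mono (m : ℕ) (φ χ : G → ℝ) (h : ∀ g, φ g ≤ χ g) : EE S m φ ≤ EE S m χ := by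
  induction m generalizing φ χ with
  | zero => exact h 1
  | succ m ih =>
    simp only [EE]
    exact div_le_div_of_nonneg_right (sum_le_sum fun s _ => ih _ _ fun g => h _)
      (Nat.cast_nonneg _)

theorem EE_nonneg (m : ℕ) (φ : G → ℝ) (h : ∀ g, 0 ≤ φ g) : 0 ≤ EE S m φ := by
  have := EE_mono S m (fun _ => 0) φ h
  rwa [EE_zero] at this

theorem EE_one (hS : (1 : G) ∈ S) (m : ℕ) : EE S m (fun _ => (1 : ℝ)) = 1 := by
  have hc : (S.card : ℝ) ≠ 0 := by
    exact_mod_cast (card_pos.2 ⟨1, hS⟩).ne'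
  induction m with
  | zero => rfl
  | succ m ih =>
    simp only [EE]
    rw [ih, sum_const, nsmul_eq_mul, mul_one, div_self hc]

theorem EE_append (m n : ℕ) (φ : G → ℝ) :
    EE S (m + n) φ = EE S m (fun g => EE S n (fun h => φ (g * h))) := by
  induction m generalizing φ with
  | zero =>
    rw [zero_add]
    simp only [EE, one_mul]
  | succ m ih =>
    rw [show m + 1 + n = (m + n) + 1 by ring]
    simp only [EE]
    congr 1
    refine sum_congr rfl fun s _ => ?_
    rw [ih]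
    simp only [mul_assoc]

theorem EE_succ' (m : ℕ) (φ : G → ℝ) :
    EE S (m + 1) φ = (∑ s ∈ S, EE S m (fun g => φ (g * s))) / S.card := by
  rw [EE_append]
  simp only [EE, mul_one]
  have : (fun g => (∑ s ∈ S, φ (g * s)) / (S.card : ℝ)) =
      fun g => (∑ s ∈ S, φ (g * s)) * ((S.card : ℝ)⁻¹) := by
    funext g
    rw [div_eq_mul_inv]
  rw [this, EE_mul, EE_sum, div_eq_mul_inv]

theorem EE_inv (hS : ∀ s ∈ S, s⁻¹ ∈ S) (m : ℕ) (φ : G → ℝ) :
    EE S m (fun g => φ g⁻¹) = EE S m φ := by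
  induction m generalizing φ with
  | zero => simp only [EE, inv_one]
  | succ m ih =>
    rw [EE_succ' S m φ]
    simp only [EE, mul_inv_rev]
    congr 1
    have h1 : ∀ s : G, EE S m (fun g => φ (g⁻¹ * s⁻¹)) = EE S m (fun g => φ (g * s⁻¹)) :=
      fun s => ih (fun g => φ (g * s⁻¹))
    simp only [h1]
    refine sum_bij' (fun s _ => s⁻¹) (fun s _ => s⁻¹) (fun s hs => hS s hs)
      (fun s hs => hS s hs) (fun s _ => inv_inv s) (fun s _ => inv_inv s) (fun s _ => rfl)

open Classical in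
/-- the distribution of the product -/
noncomputable def pr (m : ℕ) (x : G) : ℝ := EE S m (fun g => if g = x then 1 else 0)

theorem pr_nonneg (m : ℕ) (x : G) : 0 ≤ pr S m x :=
  EE_nonneg S m _ fun g => by split_ifs <;> norm_num

theorem pr_out (m : ℕ) (x : G) (hx : x ∉ TT S m) : pr S m x = 0 := by
  classical
  unfold pr
  refine (EE_congr S m _ (fun _ => 0) fun g hg => ?_).trans (EE_zero S m)
  rw [if_neg]
  rintro rfl
  exact hx hg

theorem EE_eq (m : ℕ) (φ : G → ℝ) : EE S m φ = ∑ x ∈ TT S m, pr S m x * φ x := by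
  classical
  have h : EE S m φ = EE S m (fun g => ∑ x ∈ TT S m, (if g = x then (1 : ℝ) else 0) * φ x) := by
    refine EE_congr S m _ _ fun g hg => ?_
    rw [sum_eq_single g]
    · rw [if_pos rfl, one_mul]
    · intro b _ hb
      rw [if_neg (Ne.symm hb), zero_mul]
    · intro hg'
      exact absurd hg hg'
  rw [h, EE_sum]
  refine sum_congr rfl fun x _ => ?_
  rw [EE_mul]
  unfold pr
  congr 1

/-- the collision probability -/
noncomputable def bb (m : ℕ) : ℝ := ∑ x ∈ TT S m, pr S m x ^ 2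

theorem sum_pr (hS : (1 : G) ∈ S) (m : ℕ) : ∑ x ∈ TT S m, pr S m x = 1 := by
  have := EE_eq S m (fun _ => (1 : ℝ))
  rw [EE_one S hS] at this
  simpa using this.symm

theorem bb_pos (hS : (1 : G) ∈ S) (m : ℕ) : 0 < bb S m := by
  have h1 := sum_pr S hS m
  have h2 : bb S m ≠ 0 := by
    intro h0
    unfold bb at h0
    rw [sum_eq_zero_iff_of_nonneg fun x _ => sq_nonneg _] at h0
    have h3 : ∑ x ∈ TT S m, pr S m x = 0 :=
      sum_eq_zero fun x hx => pow_eq_zero_iff (two_ne_zero) |>.1 (h0 x hx)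
    rw [h3] at h1
    exact zero_ne_one h1
  exact lt_of_le_of_ne (sum_nonneg fun x _ => sq_nonneg _) (Ne.symm h2)

theorem bb_zero : bb S 0 = 1 := by
  classical
  unfold bb
  simp [TT, pr, EE]

/-- a correlation -/
noncomputable def QQ (m : ℕ) (v : G) : ℝ := ∑ x ∈ TT S m, pr S m x * pr S m (v * x)

theorem shift_le (m : ℕ) (v : G) : ∑ x ∈ TT S m, pr S m (v * x) ^ 2 ≤ bb S m := by
  classical
  have h1 : ∑ x ∈ TT S m, pr S m (v * x) ^ 2 =
      ∑ y ∈ (TT S m).image (fun x => v * x), pr S m y ^ 2 := by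
    rw [sum_image]
    intro a _ b _ hab
    exact mul_left_cancel hab
  rw [h1]
  have h2 : ∑ y ∈ (TT S m).image (fun x => v * x), pr S m y ^ 2 =
      ∑ y ∈ ((TT S m).image (fun x => v * x)).filter (fun y => y ∈ TT S m), pr S m y ^ 2 := by
    rw [sum_filter]
    refine sum_congr rfl fun y _ => ?_
    by_cases hy : y ∈ TT S m
    · rw [if_pos hy]
    · rw [if_neg hy, pr_out S m y hy, zero_pow two_ne_zero]
  rw [h2]
  refine sum_le_sum_of_subset_of_nonneg ?_ fun y _ _ => sq_nonneg _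
  intro y hy
  exact (mem_filter.1 hy).2

theorem QQ_le (m : ℕ) (v : G) : QQ S m v ≤ bb S m := by
  have h1 : QQ S m v ≤ ∑ x ∈ TT S m, (pr S m x ^ 2 + pr S m (v * x) ^ 2) / 2 := by
    refine sum_le_sum fun x _ => ?_
    nlinarith [sq_nonneg (pr S m x - pr S m (v * x))]
  rw [← sum_div, sum_add_distrib] at h1
  have h2 := shift_le S m v
  have h3 : bb S m = ∑ x ∈ TT S m, pr S m x ^ 2 := rfl
  linarith

theorem bb_eq (m : ℕ) : bb S m = EE S m (fun g => pr S m g) := by
  rw [EE_eq]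
  exact sum_congr rfl fun x _ => sq _

theorem bb_succ (m : ℕ) : bb S (m + 1) =
    (∑ s ∈ S, ∑ t ∈ S, QQ S m (t⁻¹ * s)) / (S.card : ℝ) ^ 2 := by
  classical
  rw [bb_eq]
  simp only [EE]
  have h1 : ∀ s : G, EE S m (fun g => pr S (m + 1) (s * g)) =
      (∑ t ∈ S, QQ S m (t⁻¹ * s)) * ((S.card : ℝ)⁻¹) := by
    intro s
    have h2 : (fun g => pr S (m + 1) (s * g)) =
        fun g => (∑ t ∈ S, pr S m (t⁻¹ * s * g)) * ((S.card : ℝ)⁻¹) := by
      funext g
      have h3 : ∀ x : G, pr S (m + 1) x = (∑ t ∈ S, pr S m (t⁻¹ * x)) * ((S.card : ℝ)⁻¹) := by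
        intro x
        rw [← div_eq_mul_inv]
        unfold pr
        simp only [EE]
        congr 1
        refine sum_congr rfl fun t _ => ?_
        congr 1
        funext g
        congr 1
        rw [eq_inv_mul_iff_mul_eq]
      rw [h3]
      simp only [mul_assoc]
    rw [h2, EE_mul, EE_sum]
    congr 1
    refine sum_congr rfl fun t _ => ?_
    rw [EE_eq]
    rfl
  simp only [h1]
  rw [← sum_mul, sq, ← div_div, div_eq_mul_inv, div_eq_mul_inv, div_eq_mul_inv]

/-- doubling -/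
theorem double (hS : (1 : G) ∈ S) (hi : ∀ s ∈ S, s⁻¹ ∈ S) {ψ : G → ℝ} (hψ : CND ψ)
    (hsy : ∀ g, ψ g⁻¹ = ψ g) (m : ℕ) : EE S (m + m) ψ ≤ 2 * EE S m ψ := by
  classical
  have h0 : EE S (m + m) ψ = EE S m (fun g => EE S m (fun h => ψ (g⁻¹ * h))) := by
    rw [EE_append]
    exact (EE_inv S hi m (fun g => EE S m (fun h => ψ (g * h)))).symm
  set T := insert (1 : G) (TT S m) with hT
  set c : G → ℝ := fun g => pr S m g - if g = 1 then 1 else 0 with hc
  have hsum : ∀ φ : G → ℝ, ∑ g ∈ T, pr S m g * φ g = EE S m φ := by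
    intro φ
    rw [EE_eq]
    by_cases h1 : (1 : G) ∈ TT S m
    · rw [hT, insert_eq_self.2 h1]
    · rw [hT, sum_insert h1, pr_out S m 1 h1, zero_mul, zero_add]
  have hδ : ∀ φ : G → ℝ, ∑ g ∈ T, (if g = 1 then (1 : ℝ) else 0) * φ g = φ 1 := by
    intro φ
    rw [sum_eq_single 1]
    · rw [if_pos rfl, one_mul]
    · intro b _ hb
      rw [if_neg hb, zero_mul]
    · intro h
      exact absurd (mem_insert_self _ _) h
  have hcs : ∀ φ : G → ℝ, ∑ g ∈ T, c g * φ g = EE S m φ - φ 1 := by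
    intro φ
    simp only [hc, sub_mul]
    rw [sum_sub_distrib, hsum, hδ]
  have h1 : ∑ g ∈ T, c g = 0 := by
    have := hcs (fun _ => 1)
    rw [EE_one S hS] at this
    simpa using this
  have h2 := hψ.neg T c h1
  have h3 : ∑ g ∈ T, ∑ h ∈ T, c g * c h * ψ (g⁻¹ * h) =
      EE S m (fun g => EE S m (fun h => ψ (g⁻¹ * h))) - EE S m ψ - EE S m ψ := by
    have h4 : ∀ g, ∑ h ∈ T, c g * c h * ψ (g⁻¹ * h) =
        c g * (EE S m (fun h => ψ (g⁻¹ * h)) - ψ g) := by
      intro g
      have h5 := hcs (fun h => ψ (g⁻¹ * h))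
      rw [mul_one, hsy] at h5
      rw [← h5, mul_sum]
      exact sum_congr rfl fun h _ => by ring
    simp only [h4]
    rw [hcs]
    have h6 : EE S m (fun g => EE S m (fun h => ψ (g⁻¹ * h)) - ψ g) =
        EE S m (fun g => EE S m (fun h => ψ (g⁻¹ * h))) - EE S m ψ := by
      have := EE_add S m (fun g => EE S m (fun h => ψ (g⁻¹ * h)) - ψ g) ψ
      simp only [sub_add_cancel] at this
      linarith
    rw [h6]
    simp only [inv_one, one_mul, hψ.one, sub_zero]
  rw [h3] at h2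
  rw [h0]
  linarith

theorem a_le (hS : (1 : G) ∈ S) (hi : ∀ s ∈ S, s⁻¹ ∈ S) {ψ : G → ℝ} (hψ : CND ψ)
    (hsy : ∀ g, ψ g⁻¹ = ψ g) {σ : ℝ} (hσ : ∀ s ∈ S, ψ s ≤ σ) (j : ℕ) :
    EE S (2 ^ j) ψ ≤ 2 ^ j * σ := by
  induction j with
  | zero =>
    have hc : (0 : ℝ) < S.card := by
      exact_mod_cast card_pos.2 ⟨1, hS⟩
    rw [pow_zero, pow_zero, one_mul]
    simp only [EE, mul_one]
    rw [div_le_iff₀ hc]
    calc ∑ s ∈ S, ψ s ≤ ∑ _s ∈ S, σ := sum_le_sum hσ
      _ = σ * S.card := by rw [sum_const, nsmul_eq_mul, mul_comm]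
  | succ j ih =>
    rw [pow_succ, mul_two]
    refine (double S hS hi hψ hsy _).trans ?_
    rw [pow_succ]
    linarith

end WALK_

open WALK_ Finset in
theorem walk_holds : tWALK.{u} := by
  classical
  intro G _ S ψ σ ε ζ B j hS hi hψ hsy hσ hε hζ hζ1 hB hK hj hn
  set n := 2 ^ j with hnn
  have hn1 : 1 ≤ n := Nat.one_le_two_pow
  have ha : EE S n ψ ≤ ε / 2 := by
    refine (a_le S hS hi hψ hsy hσ j).trans hj
  -- lower bound for the collision probability
  have hbn : 1 ≤ 4 * B * bb S n := by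
    set K := (TT S n).filter (fun g => ψ g ≤ ε) with hKd
    have h1 : (K.card : ℝ) ≤ B := hK K fun g hg => (mem_filter.1 hg).2
    have h2 : ε * (1 - ∑ x ∈ K, pr S n x) ≤ ε / 2 := by
      have h3 : (1 : ℝ) - ∑ x ∈ K, pr S n x =
          ∑ x ∈ (TT S n).filter (fun g => ¬ ψ g ≤ ε), pr S n x := by
        rw [← sum_pr S hS n, hKd, ← sum_filter_add_sum_filter_not (TT S n) (fun g => ψ g ≤ ε)]
        ring
      rw [h3, mul_sum]
      calc ∑ x ∈ (TT S n).filter (fun g => ¬ ψ g ≤ ε), ε * pr S n x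
          ≤ ∑ x ∈ (TT S n).filter (fun g => ¬ ψ g ≤ ε), pr S n x * ψ x := by
            refine sum_le_sum fun x hx => ?_
            have h4 := (mem_filter.1 hx).2
            rw [mul_comm]
            exact mul_le_mul_of_nonneg_left (le_of_not_ge h4) (pr_nonneg S n x)
        _ ≤ ∑ x ∈ TT S n, pr S n x * ψ x := by
            refine sum_le_sum_of_subset_of_nonneg (filter_subset _ _) fun x _ _ => ?_
            exact mul_nonneg (pr_nonneg S n x) (hψ.nonneg x)
        _ = EE S n ψ := (EE_eq S n ψ).symm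
        _ ≤ ε / 2 := ha
    have h5 : 1 / 2 ≤ ∑ x ∈ K, pr S n x := by
      by_contra hc
      have : ε * (1 / 2) < ε * (1 - ∑ x ∈ K, pr S n x) := by
        apply mul_lt_mul_of_pos_left _ hε
        linarith [not_le.1 hc]
      linarith
    have h6 := sq_sum_le_card_mul_sum_sq (s := K) (f := fun x => pr S n x)
    have h7 : ∑ x ∈ K, pr S n x ^ 2 ≤ bb S n :=
      sum_le_sum_of_subset_of_nonneg (filter_subset _ _) fun x _ _ => sq_nonneg _
    have h8 : (1 / 4 : ℝ) ≤ (∑ x ∈ K, pr S n x) ^ 2 := by nlinarith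
    have h9 : (K.card : ℝ) * ∑ x ∈ K, pr S n x ^ 2 ≤ B * bb S n := by
      apply mul_le_mul h1 h7 (sum_nonneg fun x _ => sq_nonneg _) hB.le
    linarith
  -- a good step
  have hstep : ∃ m < n, (1 - ζ) * bb S m ≤ bb S (m + 1) := by
    by_contra hc
    push Not at hc
    have h1 : ∀ m, m ≤ n → bb S m ≤ (1 - ζ) ^ m ∧ (0 < m → bb S m < (1 - ζ) ^ m) := by
      intro m
      induction m with
      | zero => exact fun _ => ⟨by rw [bb_zero, pow_zero], fun h => absurd h (lt_irrefl 0)⟩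
      | succ m ih =>
        intro hm
        have h2 := hc m (by omega)
        have h3 := (ih (by omega)).1
        have h4 : bb S (m + 1) < (1 - ζ) ^ (m + 1) := by
          rw [pow_succ, mul_comm]
          refine lt_of_lt_of_le h2 ?_
          exact mul_le_mul_of_nonneg_left h3 (by linarith)
        exact ⟨h4.le, fun _ => h4⟩
    have h5 := (h1 n le_rfl).2 (by omega)
    have h6 : 4 * B * bb S n < 4 * B * (1 - ζ) ^ n :=
      mul_lt_mul_of_pos_left h5 (by positivity)
    linarith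
  obtain ⟨m, -, hm⟩ := hstep
  refine ⟨TT S m, pr S m, pr_nonneg S m, pr_out S m, bb_pos S hS m, ?_⟩
  intro s hs
  have hc0 : (0 : ℝ) < (S.card : ℝ) ^ 2 := by
    have : (0 : ℝ) < S.card := by exact_mod_cast card_pos.2 ⟨1, hS⟩
    positivity
  have h1 := bb_succ S m
  rw [eq_div_iff hc0.ne'] at h1
  have h2 : bb S m - QQ S m (s⁻¹ * 1) ≤ ∑ a ∈ S, ∑ t ∈ S, (bb S m - QQ S m (t⁻¹ * a)) := by
    have h3 : ∀ a ∈ S, 0 ≤ ∑ t ∈ S, (bb S m - QQ S m (t⁻¹ * a)) := fun a _ =>
      sum_nonneg fun t _ => sub_nonneg.2 (QQ_le S m _)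
    refine le_trans ?_ (single_le_sum h3 hS)
    exact single_le_sum (f := fun t => bb S m - QQ S m (t⁻¹ * 1))
      (fun t _ => sub_nonneg.2 (QQ_le S m _)) hs
  have h4 : ∑ a ∈ S, ∑ t ∈ S, (bb S m - QQ S m (t⁻¹ * a)) =
      (S.card : ℝ) ^ 2 * bb S m - bb S (m + 1) * (S.card : ℝ) ^ 2 := by
    rw [h1]
    simp only [sum_sub_distrib, sum_const, nsmul_eq_mul]
    ring
  rw [h4] at h2
  have h5 : QQ S m (s⁻¹ * 1) = ∑ x ∈ TT S m, pr S m x * pr S m (s⁻¹ * x) := by
    unfold QQ
    rw [mul_one]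
  rw [← h5]
  have h6 : ∑ x ∈ TT S m, pr S m x ^ 2 = bb S m := rfl
  rw [h6]
  nlinarith

end Pool.Agent.FAP
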