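import Pool.Agent.FAP.PD
import Pool.Agent.FAP.PACK
import Pool.Agent.FAP.WALK
import Pool.Agent.FAP.AINV
import Pool.Agent.FAP.CRIT
import Pool.Agent.FAP.UCP
import Pool.Agent.FAP.EXP
import Pool.Agent.FAP.FIN

/-!
# Fast approximation of discrete groups of unitaries: assembly
-/

set_option autoImplicit false

namespace Pool.Agent.FAP

universe u

theorem crit : tCRIT.{u} := crit_holds pack_holds walk_holds ainv_holds

theorem ucp : tUCP.{u} := ucp_holds crit

theorem fin_dim : tFIN.{u} := fin_holds ucp (exp_holds pd_holds)

end Pool.Agent.FAP
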