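import Pool.Agent.FAP.Final

/-!
# Fast approximation of discrete groups of unitaries: operators as functions
-/

set_option autoImplicit false

namespace Pool.Agent.FAP

open Pool.Agent.JM

universe u

section

variable {H : Type u} [NormedAddCommGroup H] [InnerProductSpace ℂ H]

/-- `y` is adjoint to `x`. -/
def IsAdj (x y : H → H) : Prop := ∀ v w : H, inner ℂ (x v) w = inner ℂ v (y w)

/-- `M` is a unital star algebra of bounded linear operators. -/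
structure StarAlg (M : Submodule ℂ (H → H)) : Prop where
  bdd : ∀ x ∈ M, IsBoundedLinearMap ℂ x
  one : id ∈ M
  mul : ∀ x ∈ M, ∀ y ∈ M, x ∘ y ∈ M
  adj : ∀ x ∈ M, ∃ y ∈ M, IsAdj x y

/-- `Ω` is a unit vector which defines a trace on `M`. -/
def Tracial (M : Submodule ℂ (H → H)) (Ω : H) : Prop :=
  ‖Ω‖ = 1 ∧ ∀ x ∈ M, ∀ y ∈ M, inner ℂ Ω (x (y Ω)) = inner ℂ Ω (y (x Ω))

/-- `Γ` is a group of unitaries of `M`, discrete with respect to the norm `‖x Ω‖`. -/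
def DiscreteIn (M : Submodule ℂ (H → H)) (Ω : H) (Γ : Subgroup (Equiv.Perm H)) : Prop :=
  (∀ u ∈ Γ, (u : H → H) ∈ M ∧ IsAdj (u : H → H) (u⁻¹ : Equiv.Perm H)) ∧
    ∃ c : ℝ, 0 < c ∧ ∀ u ∈ Γ, u ≠ 1 → c ≤ ‖u Ω - Ω‖

/-- Finite subsets of `Γ` are approximable by finite-dimensional star subalgebras `N` of `M` up to
`o(1 / √dim N)`. -/
def SubalgebraApprox (M : Submodule ℂ (H → H)) (Ω : H) (Γ : Subgroup (Equiv.Perm H)) : Prop :=
  ∀ (F : Finset (Equiv.Perm H)) (t : ℝ), (∀ u ∈ F, u ∈ Γ) → 0 < t →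
    ∃ N : Submodule ℂ (H → H), StarAlg N ∧ N ≤ M ∧ FiniteDimensional ℂ N ∧
      ∀ u ∈ F, ∃ y ∈ N, (Module.finrank ℂ N : ℝ) * ‖u Ω - y Ω‖ ^ 2 ≤ t

/-- `Φ` is linear, maps `M` to `M`, is unital, contracts the norm `‖x Ω‖` and is completely
positive. -/
structure UCPMap (M : Submodule ℂ (H → H)) (Ω : H) (Φ : (H → H) →ₗ[ℂ] (H → H)) : Prop where
  mem : ∀ x ∈ M, Φ x ∈ M
  one : Φ id = id
  contr : ∀ x ∈ M, ‖Φ x Ω‖ ≤ ‖x Ω‖
  cp : ∀ (n : ℕ) (a b c : Fin n → H → H),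
    (∀ i, a i ∈ M ∧ b i ∈ M ∧ c i ∈ M ∧ IsAdj (b i) (c i)) →
    0 ≤ (∑ i, ∑ j, inner ℂ (a i Ω) (Φ (c i ∘ b j) (a j Ω))).re

/-- Finite subsets of `Γ` are approximable by unital completely positive maps `Φ` of finite rank,
with `1 - Re ⟪u Ω, Φ(u) Ω⟫ = o(1 / rank Φ)`. -/
def UCPApprox (M : Submodule ℂ (H → H)) (Ω : H) (Γ : Subgroup (Equiv.Perm H)) : Prop :=
  ∀ (F : Finset (Equiv.Perm H)) (t : ℝ), (∀ u ∈ F, u ∈ Γ) → 0 < t →
    ∃ (Φ : (H → H) →ₗ[ℂ] (H → H)) (V : Submodule ℂ H), UCPMap M Ω Φ ∧ FiniteDimensional ℂ V ∧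
      (∀ x ∈ M, Φ x Ω ∈ V) ∧
      ∀ u ∈ F, (Module.finrank ℂ V : ℝ) * (1 - (inner ℂ (u Ω) (Φ u Ω)).re) ≤ t

end

section

variable {H : Type u} [NormedAddCommGroup H] [InnerProductSpace ℂ H] [CompleteSpace H]

theorem adj_eq {x : H →L[ℂ] H} {y : H → H} (h : IsAdj x y) : y = ⇑(star x) := by
  funext w
  refine ext_inner_left ℂ fun v => ?_
  rw [← h v w, inner_star_right]

theorem isAdj_star (x : H →L[ℂ] H) : IsAdj (x : H → H) (⇑(star x)) := by
  intro v w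
  rw [inner_star_right]

/-- the star subalgebra of the continuous linear maps in `M` -/
def toSub (M : Submodule ℂ (H → H)) (hM : StarAlg M) : StarSubalgebra ℂ (H →L[ℂ] H) where
  carrier := {T | (T : H → H) ∈ M}
  mul_mem' := by
    intro a b ha hb
    exact hM.mul _ ha _ hb
  add_mem' := by
    intro a b ha hb
    exact M.add_mem ha hb
  algebraMap_mem' := by
    intro r
    have h1 : (⇑(algebraMap ℂ (H →L[ℂ] H) r) : H → H) = r • (id : H → H) := by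
      funext v
      rw [Algebra.algebraMap_eq_smul_one]
      rfl
    show (⇑(algebraMap ℂ (H →L[ℂ] H) r) : H → H) ∈ M
    rw [h1]
    exact M.smul_mem _ hM.one
  star_mem' := by
    intro a ha
    obtain ⟨y, hy, h⟩ := hM.adj _ ha
    show (⇑(star a) : H → H) ∈ M
    rw [← adj_eq h]
    exact hy

theorem mem_toSub {M : Submodule ℂ (H → H)} {hM : StarAlg M} {T : H →L[ℂ] H} :
    T ∈ toSub M hM ↔ (T : H → H) ∈ M := Iff.rfl

/-- the linear equivalence between the functions in `M` and the continuous linear maps -/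
noncomputable def funEquiv (M : Submodule ℂ (H → H)) (hM : StarAlg M) :
    toSub M hM ≃ₗ[ℂ] M where
  toFun T := ⟨(T : H →L[ℂ] H), T.2⟩
  map_add' S T := rfl
  map_smul' c T := rfl
  invFun x := ⟨(hM.bdd x x.2).toContinuousLinearMap, x.2⟩
  left_inv T := by
    apply Subtype.ext
    ext v
    rfl
  right_inv x := rfl

theorem amenable_of_equiv {G G' : Type u} [Group G] [Group G'] (e : G ≃* G') (h : Amenable G') :
    Amenable G := by
  obtain ⟨m, h0, h1, h2, h3⟩ := h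
  refine ⟨fun A => m (e '' A), fun A => h0 _, ?_, fun A B hAB => ?_, fun g A => ?_⟩
  · show m (e '' Set.univ) = 1
    rw [Set.image_univ, e.surjective.range_eq, h1]
  · show m (e '' (A ∪ B)) = _
    rw [Set.image_union]
    exact h2 _ _ ((Set.disjoint_image_iff e.injective).mpr hAB)
  · show m (e '' ((fun x => g * x) '' A)) = m (e '' A)
    rw [← h3 (e g) (e '' A)]
    congr 1
    rw [Set.image_image, Set.image_image]
    refine Set.image_congr fun x _ => ?_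
    exact map_mul e g x

variable {M : Submodule ℂ (H → H)} {Ω : H} {Γ : Subgroup (Equiv.Perm H)}

/-- the unitary operator of an element of `Γ` -/
noncomputable def toU (hM : StarAlg M) (hΓ : DiscreteIn M Ω Γ) : Γ →* unitary (H →L[ℂ] H) where
  toFun u := ⟨(hM.bdd _ (hΓ.1 u u.2).1).toContinuousLinearMap, by
    have h1 : star ((hM.bdd _ (hΓ.1 u u.2).1).toContinuousLinearMap) =
        (hM.bdd _ (hΓ.1 (u⁻¹ : Γ) (u⁻¹ : Γ).2).1).toContinuousLinearMap := by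
      have h2 : IsAdj ((hM.bdd _ (hΓ.1 u u.2).1).toContinuousLinearMap : H → H)
          (⇑((u : Equiv.Perm H)⁻¹)) := (hΓ.1 u u.2).2
      have h3 := adj_eq h2
      ext v
      exact (congrFun h3 v).symm
    rw [Unitary.mem_iff, h1]
    constructor
    · ext v
      show (u : Equiv.Perm H)⁻¹ ((u : Equiv.Perm H) v) = v
      simp
    · ext v
      show (u : Equiv.Perm H) ((u : Equiv.Perm H)⁻¹ v) = v
      simp⟩
  map_one' := by
    apply Subtype.ext
    ext v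
    rfl
  map_mul' a b := by
    apply Subtype.ext
    ext v
    rfl

theorem toU_apply (hM : StarAlg M) (hΓ : DiscreteIn M Ω Γ) (u : Γ) (v : H) :
    ((toU hM hΓ u : unitary (H →L[ℂ] H)) : H →L[ℂ] H) v = (u : Equiv.Perm H) v := rfl

theorem toU_injective (hM : StarAlg M) (hΓ : DiscreteIn M Ω Γ) :
    Function.Injective (toU hM hΓ) := by
  intro a b h
  apply Subtype.ext
  ext v
  rw [← toU_apply hM hΓ a, ← toU_apply hM hΓ b, h]

theorem discrete_range (hM : StarAlg M) (hΓ : DiscreteIn M Ω Γ) :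
    (∀ u ∈ (toU hM hΓ).range, (u : H →L[ℂ] H) ∈ toSub M hM) ∧
      ∃ c : ℝ, 0 < c ∧ ∀ u ∈ (toU hM hΓ).range, u ≠ 1 → c ≤ ‖(u : H →L[ℂ] H) Ω - Ω‖ := by
  constructor
  · rintro _ ⟨g, rfl⟩
    exact (hΓ.1 g g.2).1
  · obtain ⟨c, hc, h⟩ := hΓ.2
    refine ⟨c, hc, ?_⟩
    rintro _ ⟨g, rfl⟩ hne
    refine h g g.2 fun h1 => hne ?_
    have h2 : g = 1 := Subtype.ext h1
    rw [h2, map_one]

theorem trace_toSub (hM : StarAlg M) (htr : Tracial M Ω) :
    ∀ x ∈ toSub M hM, ∀ y ∈ toSub M hM, inner ℂ Ω ((x * y) Ω) = inner ℂ Ω ((y * x) Ω) :=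
  fun x hx y hy => htr.2 x hx y hy

/-- the preimage in `Γ` of a finite set -/
theorem exists_preimage (hM : StarAlg M) (hΓ : DiscreteIn M Ω Γ)
    (F : Finset (unitary (H →L[ℂ] H))) (hF : ∀ u ∈ F, u ∈ (toU hM hΓ).range) :
    ∃ F' : Finset (Equiv.Perm H), (∀ u ∈ F', u ∈ Γ) ∧
      ∀ u ∈ F, ∃ g ∈ F', ∀ v, (u : H →L[ℂ] H) v = g v := by
  classical
  have h1 : ∀ u : F, ∃ g : Γ, toU hM hΓ g = u := fun u => hF u u.2
  choose g hg using h1
  refine ⟨Finset.univ.image fun u : F => ((g u : Γ) : Equiv.Perm H), ?_, ?_⟩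
  · intro u hu
    obtain ⟨w, -, rfl⟩ := Finset.mem_image.mp hu
    exact (g w).2
  · intro u hu
    refine ⟨(g ⟨u, hu⟩ : Γ), Finset.mem_image.mpr ⟨⟨u, hu⟩, Finset.mem_univ _, rfl⟩, fun v => ?_⟩
    rw [← toU_apply hM hΓ, hg]

theorem amenable_of_sub (hM : StarAlg M) (htr : Tracial M Ω) (hs : ∀ x ∈ M, x Ω = 0 → x = 0)
    (hΓ : DiscreteIn M Ω Γ) (h : SubalgebraApprox M Ω Γ) : Amenable Γ := by
  obtain ⟨h1, h2⟩ := discrete_range hM hΓ
  refine amenable_of_equiv (MonoidHom.ofInjective (toU_injective hM hΓ)) ?_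
  refine fin_dim H (toSub M hM) Ω ⟨htr.1, trace_toSub hM htr, fun x hx h0 => ?_⟩ _ h1 h2 ?_
  · ext v
    exact congrFun (hs _ hx h0) v
  · intro F t hF ht
    obtain ⟨F', hF', hFF'⟩ := exists_preimage hM hΓ F hF
    obtain ⟨N, hN, hNM, hfin, hN'⟩ := h F' t hF' ht
    have e := funEquiv N hN
    refine ⟨toSub N hN, fun x hx => hNM hx, LinearEquiv.finiteDimensional e.symm, ?_⟩
    intro u hu
    obtain ⟨g, hg, hug⟩ := hFF' u hu
    obtain ⟨y, hy, hle⟩ := hN' g hg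
    refine ⟨(hN.bdd y hy).toContinuousLinearMap, hy, ?_⟩
    have h3 : Module.finrank ℂ (toSub N hN) = Module.finrank ℂ N := LinearEquiv.finrank_eq e
    rw [h3, hug]
    exact hle

theorem amenable_of_ucp (hM : StarAlg M) (htr : Tracial M Ω)
    (hΓ : DiscreteIn M Ω Γ) (h : UCPApprox M Ω Γ) : Amenable Γ := by
  obtain ⟨h1, h2⟩ := discrete_range hM hΓ
  refine amenable_of_equiv (MonoidHom.ofInjective (toU_injective hM hΓ)) ?_
  refine ucp H (toSub M hM) Ω htr.1 (trace_toSub hM htr) _ h1 h2 ?_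
  intro F t hF ht
  obtain ⟨F', hF', hFF'⟩ := exists_preimage hM hΓ F hF
  obtain ⟨Φ, V, hΦ, hfin, hV, hle⟩ := h F' t hF' ht
  -- the map on continuous linear maps
  let Ms : Submodule ℂ (H →L[ℂ] H) := Subalgebra.toSubmodule (toSub M hM).toSubalgebra
  let φ : Ms →ₗ[ℂ] (H →L[ℂ] H) :=
    { toFun := fun T => (hM.bdd _ (hΦ.mem _ T.2)).toContinuousLinearMap
      map_add' := fun S T => by
        ext v
        exact congrFun (map_add Φ (⇑(S : H →L[ℂ] H) : H → H) (⇑(T : H →L[ℂ] H) : H → H)) v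
      map_smul' := fun c T => by
        ext v
        exact congrFun (map_smul Φ c (⇑(T : H →L[ℂ] H) : H → H)) v }
  obtain ⟨Φ', hΦ'⟩ := φ.exists_extend
  have hΦ2 : ∀ x ∈ toSub M hM, (⇑(Φ' x) : H → H) = Φ x := by
    intro x hx
    have h3 := congrArg (fun L => L ⟨x, hx⟩) hΦ'
    have h4 : Φ' x = φ ⟨x, hx⟩ := h3
    rw [h4]
    rfl
  refine ⟨Φ', V, hfin, ⟨?_, ?_, ?_, ?_⟩, ?_, ?_⟩
  · intro x hx
    show (⇑(Φ' x) : H → H) ∈ M
    rw [hΦ2 x hx]
    exact hΦ.mem _ hx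
  · ext v
    have h3 := hΦ2 1 (one_mem _)
    have h4 : (⇑(1 : H →L[ℂ] H) : H → H) = id := rfl
    rw [h4, hΦ.one] at h3
    rw [h3]
    rfl
  · intro x hx
    rw [hΦ2 x hx]
    exact hΦ.contr _ hx
  · intro n a b ha hb
    have h3 := hΦ.cp n (fun i => a i) (fun i => b i) (fun i => ⇑(star (b i)))
      (fun i => ⟨ha i, hb i, star_mem (hb i), isAdj_star (b i)⟩)
    convert h3 using 5 with i _ j _
    rw [hΦ2 _ (mul_mem (star_mem (hb i)) (hb j))]
    rfl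
  · intro x hx
    rw [hΦ2 x hx]
    exact hV _ hx
  · intro u hu
    obtain ⟨g, hg, hug⟩ := hFF' u hu
    have h3 := hle g hg
    have h4 : (u : H →L[ℂ] H) ∈ toSub M hM := h1 u (hF u hu)
    have h5 : (⇑(u : H →L[ℂ] H) : H → H) = ⇑g := funext hug
    rw [hΦ2 _ h4, h5]
    exact h3

end

end Pool.Agent.FAP
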