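import Pool.Agent.FAP.Targets

/-!
# PD: a sum of products of two Gram kernels is positive definite
-/

set_option autoImplicit false

namespace Pool.Agent.FAP

open Matrix
open scoped ComplexOrder

universe u

theorem pd_holds : tPD.{u} := by
  intro H _ _ ι α _ _ x y
  have h1 : (gram ℂ (fun p : ι × α => x p.1 p.2)).PosSemidef := posSemidef_gram ℂ _
  have h2 : (gram ℂ (fun p : ι × α => y p.1 p.2)).PosSemidef := posSemidef_gram ℂ _
  have h3 := (h1.hadamard h2).dotProduct_mulVec_nonneg (fun _ => 1)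
  have h4 : (star (fun _ : ι × α => (1 : ℂ))) ⬝ᵥ
      ((gram ℂ (fun p : ι × α => x p.1 p.2)) ⊙ (gram ℂ (fun p : ι × α => y p.1 p.2))) *ᵥ
        (fun _ => 1) =
      ∑ i, ∑ j, ∑ a, ∑ b, inner ℂ (x i a) (x j b) * inner ℂ (y i a) (y j b) := by
    simp only [dotProduct, mulVec, hadamard_apply, gram_apply, Pi.star_apply, star_one, one_mul,
      mul_one, Fintype.sum_prod_type]
    refine Finset.sum_congr rfl fun i _ => ?_
    rw [Finset.sum_comm]
  rw [h4] at h3
  exact (Complex.nonneg_iff.1 h3).1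

end Pool.Agent.FAP
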