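import Pool.Agent.FAP.Defs

/-!
# Fast approximation of discrete groups of unitaries: targets
-/

set_option autoImplicit false

namespace Pool.Agent.FAP

open Pool.Agent.JM

universe u

/-- PD: a sum of products of two Gram kernels is positive definite. -/
def tPD : Prop :=
  ∀ (H : Type u) [NormedAddCommGroup H] [InnerProductSpace ℂ H] (ι α : Type) [Fintype ι]
    [Fintype α] (x y : ι → α → H),
    0 ≤ (∑ i, ∑ j, ∑ a, ∑ b, inner ℂ (x i a) (x j b) * inner ℂ (y i a) (y j b)).re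

/-- PACK: separated points in the unit ball. -/
def tPACK : Prop :=
  ∀ (V : Type u) [NormedAddCommGroup V] [InnerProductSpace ℂ V] [FiniteDimensional ℂ V]
    (δ : ℝ) (ι : Type u) (s : Finset ι) (f : ι → V), 0 < δ → (∀ i ∈ s, ‖f i‖ ≤ 1) →
    (∀ i ∈ s, ∀ j ∈ s, i ≠ j → δ ≤ ‖f i - f j‖) →
    (s.card : ℝ) ≤ (1 + 2 / δ) ^ (2 * Module.finrank ℂ V)

/-- WALK: an almost invariant function from a conditionally negative definite function. -/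
def tWALK : Prop :=
  ∀ (G : Type u) [Group G] (S : Finset G) (ψ : G → ℝ) (σ ε ζ B : ℝ) (j : ℕ),
    (1 : G) ∈ S → (∀ s ∈ S, s⁻¹ ∈ S) → CND ψ → (∀ g, ψ g⁻¹ = ψ g) → (∀ s ∈ S, ψ s ≤ σ) →
    0 < ε → 0 < ζ → ζ < 1 → 0 < B →
    (∀ K : Finset G, (∀ g ∈ K, ψ g ≤ ε) → (K.card : ℝ) ≤ B) →
    2 ^ j * σ ≤ ε / 2 → 4 * B * (1 - ζ) ^ (2 ^ j) ≤ 1 →
    ∃ (T : Finset G) (f : G → ℝ), (∀ x, 0 ≤ f x) ∧ (∀ x, x ∉ T → f x = 0) ∧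
      0 < ∑ x ∈ T, f x ^ 2 ∧
      ∀ s ∈ S, (1 - (S.card : ℝ) ^ 2 * ζ) * ∑ x ∈ T, f x ^ 2 ≤ ∑ x ∈ T, f x * f (s⁻¹ * x)

/-- AINV: from an almost invariant function to an almost invariant mean. -/
def tAINV : Prop :=
  ∀ (G : Type u) [Group G] (S T : Finset G) (f : G → ℝ) (κ : ℝ),
    (∀ x, 0 ≤ f x) → (∀ x, x ∉ T → f x = 0) → 0 < ∑ x ∈ T, f x ^ 2 →
    (∀ s ∈ S, (1 - κ) * ∑ x ∈ T, f x ^ 2 ≤ ∑ x ∈ T, f x * f (s⁻¹ * x)) →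
    AInv (S : Set G) (2 * √(2 * κ))

/-- CRIT: the criterion. -/
def tCRIT : Prop :=
  ∀ (H : Type u) [NormedAddCommGroup H] [InnerProductSpace ℂ H] [CompleteSpace H] (Ω : H)
    (Γ : Subgroup (unitary (H →L[ℂ] H))) (c : ℝ), ‖Ω‖ = 1 → 0 < c →
    (∀ u ∈ Γ, u ≠ 1 → c ≤ ‖(u : H →L[ℂ] H) Ω - Ω‖) →
    (∀ (F : Finset Γ) (η : ℝ), 0 < η → ∃ (V : Submodule ℂ H) (_ : FiniteDimensional ℂ V)
      (ψ : Γ → ℝ), CND ψ ∧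
        (∀ g : Γ, ∃ v ∈ V, ‖((g : unitary (H →L[ℂ] H)) : H →L[ℂ] H) Ω - v‖ ^ 2 ≤ ψ g) ∧
        ∀ u ∈ F, (Module.finrank ℂ V : ℝ) * ψ u ≤ η) →
    Amenable Γ

/-- UCP: approximation by unital completely positive maps of finite rank. -/
def tUCP : Prop :=
  ∀ (H : Type u) [NormedAddCommGroup H] [InnerProductSpace ℂ H] [CompleteSpace H]
    (M : StarSubalgebra ℂ (H →L[ℂ] H)) (Ω : H), ‖Ω‖ = 1 →
    (∀ x ∈ M, ∀ y ∈ M, inner ℂ Ω ((x * y) Ω) = inner ℂ Ω ((y * x) Ω)) →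
    ∀ (Γ : Subgroup (unitary (H →L[ℂ] H))), (∀ u ∈ Γ, (u : H →L[ℂ] H) ∈ M) →
    (∃ c : ℝ, 0 < c ∧ ∀ u ∈ Γ, u ≠ 1 → c ≤ ‖(u : H →L[ℂ] H) Ω - Ω‖) →
    (∀ (F : Finset (unitary (H →L[ℂ] H))) (η : ℝ), (∀ u ∈ F, u ∈ Γ) → 0 < η →
      ∃ (Φ : (H →L[ℂ] H) →ₗ[ℂ] (H →L[ℂ] H)) (V : Submodule ℂ H) (_ : FiniteDimensional ℂ V),
        UCP M Ω Φ ∧ (∀ x ∈ M, Φ x Ω ∈ V) ∧ ∀ u ∈ F,
          (Module.finrank ℂ V : ℝ) *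
            (1 - (inner ℂ ((u : H →L[ℂ] H) Ω) (Φ (u : H →L[ℂ] H) Ω)).re) ≤ η) →
    Amenable Γ

/-- EXP: the conditional expectation onto a finite-dimensional star subalgebra. -/
def tEXP : Prop :=
  ∀ (H : Type u) [NormedAddCommGroup H] [InnerProductSpace ℂ H] [CompleteSpace H]
    (M N : StarSubalgebra ℂ (H →L[ℂ] H)) (Ω : H), TraceVec M Ω → N ≤ M →
    FiniteDimensional ℂ N → ∃ Φ : (H →L[ℂ] H) →ₗ[ℂ] (H →L[ℂ] H), UCP M Ω Φ ∧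
      (∀ x, Φ x ∈ N) ∧ ∀ x, ∀ y ∈ N, inner ℂ (y Ω) (x Ω - Φ x Ω) = 0

/-- FIN: fast approximation by finite-dimensional star subalgebras. -/
def tFIN : Prop :=
  ∀ (H : Type u) [NormedAddCommGroup H] [InnerProductSpace ℂ H] [CompleteSpace H]
    (M : StarSubalgebra ℂ (H →L[ℂ] H)) (Ω : H), TraceVec M Ω →
    ∀ (Γ : Subgroup (unitary (H →L[ℂ] H))), (∀ u ∈ Γ, (u : H →L[ℂ] H) ∈ M) →
    (∃ c : ℝ, 0 < c ∧ ∀ u ∈ Γ, u ≠ 1 → c ≤ ‖(u : H →L[ℂ] H) Ω - Ω‖) →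
    (∀ (F : Finset (unitary (H →L[ℂ] H))) (η : ℝ), (∀ u ∈ F, u ∈ Γ) → 0 < η →
      ∃ N : StarSubalgebra ℂ (H →L[ℂ] H), N ≤ M ∧ FiniteDimensional ℂ N ∧ ∀ u ∈ F, ∃ y ∈ N,
        (Module.finrank ℂ N : ℝ) * ‖(u : H →L[ℂ] H) Ω - y Ω‖ ^ 2 ≤ η) →
    Amenable Γ

end Pool.Agent.FAP
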